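import Pool.Agent.NH50.UX.Stm

/-!
# Project UX: enough small primes, second version
-/

set_option autoImplicit false

namespace Pool.Agent.NH50.UX

open Filter Asymptotics
open scoped Nat.Prime

/-- the excess, second version -/
noncomputable def E2 (β : ℝ) (y : ℕ) : ℕ := ⌈((y : ℝ) + 2) ^ β⌉₊ + 1

namespace CHT

/-- a weak Chebyshev bound -/
theorem pi_lower2 (c : ℝ) (hc : c < 1) :
    ∀ᶠ t : ℕ in atTop, (t : ℝ) ^ c ≤ (π t : ℝ) := by
  have e1 : ∀ᶠ x : ℝ in atTop, ‖Real.log x‖ ≤ (1 / 16 : ℝ) * ‖x ^ (1 - c)‖ :=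
    (isLittleO_log_rpow_atTop (by linarith : (0 : ℝ) < 1 - c)).bound (by norm_num)
  have e1' := tendsto_natCast_atTop_atTop (R := ℝ) |>.eventually e1
  filter_upwards [e1', eventually_ge_atTop 16] with t h1 ht
  have ht0 : (16 : ℝ) ≤ t := by exact_mod_cast ht
  have hlog : 0 < Real.log t := Real.log_pos (by linarith)
  have hrp : (0 : ℝ) ≤ (t : ℝ) ^ (1 - c) := Real.rpow_nonneg (by linarith) _
  rw [Real.norm_of_nonneg hlog.le, Real.norm_of_nonneg hrp] at h1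
  have h2 : Real.log ((t : ℝ) + 1) ≤ Real.log t + 1 / 16 := by
    have h3 : (t : ℝ) + 1 = t * (1 + 1 / t) := by field_simp
    rw [h3, Real.log_mul (by linarith) (by positivity)]
    have h4 := Real.log_le_sub_one_of_pos (show (0 : ℝ) < 1 + 1 / (t : ℝ) by positivity)
    have h5 : (1 : ℝ) / t ≤ 1 / 16 := one_div_le_one_div_of_le (by norm_num) ht0
    linarith
  have hlt : Real.log t ≤ t - 1 := Real.log_le_sub_one_of_pos (by linarith)
  have hl2 : Real.log t ≤ 1 / 2 * t := by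
    have h3 := Real.log_le_sub_one_of_pos (show (0 : ℝ) < (t : ℝ) / 4 by linarith)
    rw [Real.log_div (by linarith) (by norm_num)] at h3
    have h4 : Real.log 4 = 2 * Real.log 2 := by
      rw [show (4 : ℝ) = 2 ^ 2 by norm_num, Real.log_pow]
      norm_num
    have h5 := Real.log_two_lt_d9
    linarith
  have h6 : (0.69 : ℝ) ≤ Real.log 2 := by
    have := Real.log_two_gt_d9
    linarith
  have h7 := Chebyshev.pi_ge t
  refine le_trans ?_ h7
  rw [le_div_iff₀ hlog]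
  have h8 : (t : ℝ) ^ c * (t : ℝ) ^ (1 - c) = t := by
    rw [← Real.rpow_add (by linarith)]
    rw [show c + (1 - c) = 1 by ring, Real.rpow_one]
  have h9 : 0 ≤ (t : ℝ) ^ c := Real.rpow_nonneg (by linarith) _
  have h10 : (t : ℝ) ^ c * Real.log t ≤ 1 / 16 * t := by
    calc (t : ℝ) ^ c * Real.log t
        ≤ (t : ℝ) ^ c * (1 / 16 * (t : ℝ) ^ (1 - c)) :=
          mul_le_mul_of_nonneg_left h1 h9
      _ = 1 / 16 * t := by rw [mul_left_comm, h8]
  have h11 : (t : ℝ) * 0.69 ≤ t * Real.log 2 := mul_le_mul_of_nonneg_left h6 (by linarith)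
  linarith

/-- the counting inequality -/
theorem count2 (α β : ℝ) (hα : 0 < α) (hβ : 0 < β) (hαβ : α + β < 1 / 3) :
    ∃ y₀ : ℕ, ∀ y : ℕ, y₀ ≤ y → ∀ Y : ℕ, 1 ≤ Y → (Y : ℝ) ≤ Real.exp (((y : ℝ) + 2) ^ α) →
      E2 β y * mm Y ≤ π ⌊(y : ℝ) ^ (1 / 3 : ℝ)⌋₊ := by
  obtain ⟨s, hs⟩ : ∃ s : ℝ, s = (α + β + 1 / 3) / 2 := ⟨_, rfl⟩
  have hs1 : 0 < s - (α + β) := by rw [hs]; linarith
  have hs2 : 3 * s < 1 := by rw [hs]; linarith
  have hs0 : 0 < s := by linarith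
  have e1 : ∀ᶠ x : ℝ in atTop, (224 : ℝ) ≤ x ^ (s - (α + β)) :=
    (tendsto_rpow_atTop hs1).eventually (eventually_ge_atTop 224)
  have e1' := tendsto_natCast_atTop_atTop (R := ℝ) |>.eventually e1
  have e2 : Tendsto (fun y : ℕ => ⌊(y : ℝ) ^ (1 / 3 : ℝ)⌋₊) atTop atTop :=
    tendsto_nat_floor_atTop.comp
      ((tendsto_rpow_atTop (by norm_num : (0 : ℝ) < 1 / 3)).comp tendsto_natCast_atTop_atTop)
  have e3 := e2.eventually (pi_lower2 (3 * s) hs2)
  rw [← eventually_atTop]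
  filter_upwards [e1', e3, eventually_ge_atTop 8] with y h1 h3 hy Y hY1 hY
  have hy0 : (8 : ℝ) ≤ y := by exact_mod_cast hy
  have hy1 : (0 : ℝ) < y := by linarith
  set t := ⌊(y : ℝ) ^ (1 / 3 : ℝ)⌋₊ with ht
  -- lower bound of `t`
  have h5 : (2 : ℝ) ≤ (y : ℝ) ^ (1 / 3 : ℝ) := by
    calc (2 : ℝ) = (8 : ℝ) ^ (1 / 3 : ℝ) := by
          rw [show (8 : ℝ) = 2 ^ (3 : ℝ) by norm_num, ← Real.rpow_mul (by norm_num)]
          norm_num
      _ ≤ _ := Real.rpow_le_rpow (by norm_num) hy0 (by norm_num)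
  have h6 : (y : ℝ) ^ (1 / 3 : ℝ) / 2 ≤ t := by
    have := Nat.lt_floor_add_one ((y : ℝ) ^ (1 / 3 : ℝ))
    rw [← ht] at this
    linarith
  have h7 : (y : ℝ) ^ s / 2 ≤ (t : ℝ) ^ (3 * s) := by
    calc (y : ℝ) ^ s / 2 ≤ (y : ℝ) ^ s / 2 ^ (3 * s) := by
          refine div_le_div_of_nonneg_left (by positivity) (by positivity) ?_
          calc (2 : ℝ) ^ (3 * s) ≤ (2 : ℝ) ^ (1 : ℝ) :=
                Real.rpow_le_rpow_of_exponent_le (by norm_num) hs2.le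
            _ = 2 := Real.rpow_one _
      _ = ((y : ℝ) ^ (1 / 3 : ℝ) / 2) ^ (3 * s) := by
          rw [Real.div_rpow (by positivity) (by norm_num), ← Real.rpow_mul hy1.le]
          congr 2
          ring
      _ ≤ _ := Real.rpow_le_rpow (by positivity) h6 (by positivity)
  have hpw : ∀ c : ℝ, 0 < c → c < 1 → ((y : ℝ) + 2) ^ c ≤ 2 * (y : ℝ) ^ c := by
    intro c hc0 hc1
    calc ((y : ℝ) + 2) ^ c ≤ (2 * (y : ℝ)) ^ c :=
          Real.rpow_le_rpow (by positivity) (by linarith) hc0.le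
      _ = 2 ^ c * (y : ℝ) ^ c := Real.mul_rpow (by norm_num) hy1.le
      _ ≤ 2 * (y : ℝ) ^ c := by
          refine mul_le_mul_of_nonneg_right ?_ (by positivity)
          calc (2 : ℝ) ^ c ≤ (2 : ℝ) ^ (1 : ℝ) :=
                Real.rpow_le_rpow_of_exponent_le (by norm_num) hc1.le
            _ = 2 := Real.rpow_one _
  -- upper bound of the left side
  have h8 : (E2 β y : ℝ) ≤ 4 * (y : ℝ) ^ β := by
    unfold E2
    push_cast
    have a1 := Nat.ceil_lt_add_one (show 0 ≤ ((y : ℝ) + 2) ^ β by positivity)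
    have a2 := hpw β hβ (by linarith)
    have a3 : (1 : ℝ) ≤ (y : ℝ) ^ β := Real.one_le_rpow (by linarith) hβ.le
    linarith
  have h9 : (mm Y : ℝ) ≤ 28 * (y : ℝ) ^ α := by
    unfold mm
    push_cast
    have a1 : (Nat.log 2 Y : ℝ) * Real.log 2 ≤ Real.log Y := by
      rw [← Real.log_pow]
      refine Real.log_le_log (by positivity) ?_
      exact_mod_cast Nat.pow_log_le_self 2 (by omega)
    have a2 : (0.69 : ℝ) ≤ Real.log 2 := by
      have := Real.log_two_gt_d9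
      linarith
    have a3 : (Nat.log 2 Y : ℝ) * 0.69 ≤ (Nat.log 2 Y : ℝ) * Real.log 2 :=
      mul_le_mul_of_nonneg_left a2 (Nat.cast_nonneg _)
    have a4 : Real.log Y ≤ ((y : ℝ) + 2) ^ α := by
      rw [Real.log_le_iff_le_exp (by exact_mod_cast hY1)]
      exact hY
    have a5 := hpw α hα (by linarith)
    have a6 : (1 : ℝ) ≤ (y : ℝ) ^ α := Real.one_le_rpow (by linarith) hα.le
    linarith
  have h10 : (E2 β y : ℝ) * (mm Y : ℝ) ≤ (π t : ℝ) := by
    refine le_trans ?_ (le_trans h7 h3)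
    calc (E2 β y : ℝ) * (mm Y : ℝ) ≤ (4 * (y : ℝ) ^ β) * (28 * (y : ℝ) ^ α) :=
          mul_le_mul h8 h9 (Nat.cast_nonneg _) (by positivity)
      _ = 112 * ((y : ℝ) ^ α * (y : ℝ) ^ β) := by ring
      _ = 112 * (y : ℝ) ^ (α + β) := by rw [← Real.rpow_add hy1]
      _ = 224 * (y : ℝ) ^ (α + β) / 2 := by ring
      _ ≤ (y : ℝ) ^ (s - (α + β)) * (y : ℝ) ^ (α + β) / 2 := by
          have : 0 ≤ (y : ℝ) ^ (α + β) := by positivity
          have := mul_le_mul_of_nonneg_right h1 this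
          linarith
      _ = (y : ℝ) ^ s / 2 := by
          rw [← Real.rpow_add hy1]
          congr 2
          ring
  exact_mod_cast h10

end CHT

open CHT in
/-- enough small primes -/
theorem ch2 (α β : ℝ) (hα : 0 < α) (hβ : 0 < β) (hαβ : α + β < 1 / 3) :
    ∃ y₀ : ℕ, ∀ y : ℕ, y₀ ≤ y → ∀ Y : ℕ, 1 ≤ Y → (Y : ℝ) ≤ Real.exp (((y : ℝ) + 2) ^ α) →
      E2 β y ≤ y ∧ ∃ q : Fin (E2 β y) → ℕ → ℕ,
      (∀ e, ∀ j < mm Y, (q e j).Prime) ∧
      (∀ e j e' j', j < mm Y → j' < mm Y → q e j = q e' j' → e = e' ∧ j = j') ∧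
      ∀ e, ∀ j < mm Y, q e j ^ 3 ≤ y := by
  obtain ⟨y₀, h⟩ := count2 α β hα hβ hαβ
  refine ⟨y₀, fun y hy Y hY1 hY => ?_⟩
  have h1 := h y hy Y hY1 hY
  set t := ⌊(y : ℝ) ^ (1 / 3 : ℝ)⌋₊ with ht
  have hm : 0 < mm Y := by unfold mm; omega
  have h5 : t ^ 3 ≤ y := by
    have h6 : (t : ℝ) ≤ (y : ℝ) ^ (1 / 3 : ℝ) := Nat.floor_le (by positivity)
    have h7 : (t : ℝ) ^ 3 ≤ ((y : ℝ) ^ (1 / 3 : ℝ)) ^ 3 := by gcongr
    rw [← Real.rpow_natCast ((y : ℝ) ^ (1 / 3 : ℝ)), ← Real.rpow_mul (Nat.cast_nonneg _)] at h7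
    norm_num at h7
    exact_mod_cast h7
  refine ⟨?_, fun e j => Nat.nth Nat.Prime (e * mm Y + j), ?_, ?_, ?_⟩
  · have h6 : π t ≤ t := by
      unfold Nat.primeCounting Nat.primeCounting'
      have h7 : Nat.count Nat.Prime (t + 1) = Nat.count Nat.Prime (1 + t) := by rw [Nat.add_comm]
      rw [h7, Nat.count_add]
      have h8 : Nat.count Nat.Prime 1 = 0 := by
        rw [Nat.count_succ, Nat.count_zero, if_neg Nat.not_prime_zero]
      rw [h8, zero_add]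
      exact Nat.count_le _
    have h7 : t ≤ t ^ 3 := Nat.le_self_pow (by norm_num) _
    have h8 : E2 β y * 1 ≤ E2 β y * mm Y := Nat.mul_le_mul_left _ hm
    omega
  · intro e j _
    exact Nat.prime_nth_prime _
  · intro e j e' j' hj hj' h1
    have h2 := Nat.nth_injective Nat.infinite_setOfPred_prime h1
    have h3 : ((e : ℕ) * mm Y + j) / mm Y = ((e' : ℕ) * mm Y + j') / mm Y := by rw [h2]
    rw [Nat.add_comm, Nat.add_mul_div_right _ _ hm, Nat.div_eq_of_lt hj, Nat.add_comm _ j',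
      Nat.add_mul_div_right _ _ hm, Nat.div_eq_of_lt hj'] at h3
    have h4 : e = e' := Fin.ext (by omega)
    subst h4
    exact ⟨rfl, by omega⟩
  · intro e j hj
    have h2 : (e : ℕ) * mm Y + j < π t := by
      refine lt_of_lt_of_le ?_ h1
      calc (e : ℕ) * mm Y + j < (e : ℕ) * mm Y + mm Y := by omega
        _ = ((e : ℕ) + 1) * mm Y := by ring
        _ ≤ E2 β y * mm Y := Nat.mul_le_mul_right _ e.2
    have h3 : Nat.nth Nat.Prime ((e : ℕ) * mm Y + j) < t + 1 := by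
      refine Nat.nth_lt_of_lt_count ?_
      exact h2
    have h4 : Nat.nth Nat.Prime ((e : ℕ) * mm Y + j) ≤ t := by omega
    exact le_trans (Nat.pow_le_pow_left h4 3) h5

end Pool.Agent.NH50.UX
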