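import Pool.Agent.NH50.UX.Stm

/-!
# Project UX (helper50), MP_e2def7_nt: UX-EXT, a large further element
-/

set_option autoImplicit false

namespace Pool.Agent.NH50.UX

open N44b300f8 MeasureTheory Filter
open scoped ENNReal Nat.Prime

namespace EXT

variable {L : ℕ}

theorem pr_ge_one {a : Fin L → ℝ} (ha : ∀ i, 2 ≤ a i) (k : Fin L → ℕ) : 1 ≤ pr a k := by
  unfold pr
  have : ∀ s : Finset (Fin L), 1 ≤ ∏ i ∈ s, a i ^ k i := by
    intro s
    induction s using Finset.cons_induction with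
    | empty => simp
    | cons j s hj ih =>
      rw [Finset.prod_cons]
      have h1 : 1 ≤ a j ^ k j := one_le_pow₀ (by linarith [ha j])
      nlinarith
  exact this Finset.univ

theorem pr_snoc (a : Fin L → ℝ) (c : ℝ) (K : Fin (L + 1) → ℕ) :
    pr (Fin.snoc (α := fun _ => ℝ) a c) K = pr a (fun i => K i.castSucc) * c ^ K (Fin.last L) := by
  unfold pr
  rw [Fin.prod_univ_castSucc]
  congr 1
  · refine Finset.prod_congr rfl fun i _ => ?_
    rw [Fin.snoc_castSucc]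
  · rw [Fin.snoc_last]

/-- the bad set -/
def Bd (X : ℝ) (r : ℕ) (u v : ℝ) : Set ℝ := {c : ℝ | c ∈ Set.Icc X (2 * X) ∧ |c ^ r * u - v| < 1}

theorem bd_bound (hV : S_VOL) {X : ℝ} (hX : 16 ≤ X) {r : ℕ} (hr : 1 ≤ r) {u v : ℝ} (hu : 1 ≤ u)
    (hv : 1 ≤ v) : volume (Bd X r u v) ≤
      ENNReal.ofReal (4 * X ^ (1 / 2 : ℝ)) * (ENNReal.ofReal ((1 / 2) ^ r) *
        (ENNReal.ofReal (u ^ (-(1 / 4) : ℝ)) * ENNReal.ofReal (v ^ (-(1 / 8) : ℝ)))) := by
  have hX0 : 0 < X := by linarith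
  have hu0 : 0 < u := by linarith
  have hv0 : 0 < v := by linarith
  rw [← ENNReal.ofReal_mul (by positivity), ← ENNReal.ofReal_mul (by positivity),
    ← ENNReal.ofReal_mul (by positivity)]
  rcases Set.eq_empty_or_nonempty (Bd X r u v) with he | ⟨c, ⟨hc1, hc2⟩, hc3⟩
  · rw [he, measure_empty]
    exact bot_le
  refine (hV r u v X (2 * X) hr hu0 (by linarith)).trans (ENNReal.ofReal_le_ofReal ?_)
  obtain ⟨z, hz⟩ : ∃ z : ℝ, z = X ^ r * u := ⟨_, rfl⟩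
  rw [← hz]
  have hXr : X ≤ X ^ r := by
    calc X = X ^ 1 := (pow_one X).symm
      _ ≤ X ^ r := pow_le_pow_right₀ (by linarith) hr
  have hzX : X ≤ z := by rw [hz]; nlinarith
  have hz0 : 0 < z := by linarith
  -- the size of `v`
  have hvz : v ≤ 2 * z ^ 2 := by
    have h1 : v < c ^ r * u + 1 := by
      have := (abs_lt.1 hc3).1
      linarith
    have h2 : c ^ r ≤ (2 * X) ^ r := pow_le_pow_left₀ (by linarith) hc2 r
    have h3 : (2 * X) ^ r * u ≤ z ^ 2 := by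
      rw [mul_pow, hz]
      have h4 : (2 : ℝ) ^ r ≤ X ^ r := pow_le_pow_left₀ (by norm_num) (by linarith) r
      have h5 : (2 : ℝ) ^ r * (X ^ r * u) ≤ X ^ r * (X ^ r * u) :=
        mul_le_mul_of_nonneg_right h4 (by positivity)
      have h6 : X ^ r * (X ^ r * u) ≤ (X ^ r * u) * (X ^ r * u) := by
        apply mul_le_mul_of_nonneg_right _ (by positivity)
        have : 0 < X ^ r := by positivity
        nlinarith
      nlinarith
    have h7 : c ^ r * u ≤ z ^ 2 := (mul_le_mul_of_nonneg_right h2 hu0.le).trans h3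
    have h8 : 1 ≤ z ^ 2 := by nlinarith
    linarith
  -- the three factors
  have e1 : z ^ (-(1 / 2) : ℝ) ≤ X ^ (-(1 / 2) : ℝ) :=
    Real.rpow_le_rpow_of_nonpos hX0 hzX (by norm_num)
  have e2 : z ^ (-(1 / 4) : ℝ) ≤ (1 / 2) ^ r * u ^ (-(1 / 4) : ℝ) := by
    rw [hz, Real.mul_rpow (by positivity) hu0.le]
    apply mul_le_mul_of_nonneg_right _ (by positivity)
    have h1 : (X ^ r) ^ (-(1 / 4) : ℝ) = (X ^ (-(1 / 4) : ℝ)) ^ r := by
      rw [← Real.rpow_natCast X r, ← Real.rpow_mul hX0.le, mul_comm, Real.rpow_mul hX0.le,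
        Real.rpow_natCast]
    rw [h1]
    apply pow_le_pow_left₀ (by positivity)
    have h2 : X ^ (-(1 / 4) : ℝ) ≤ (16 : ℝ) ^ (-(1 / 4) : ℝ) :=
      Real.rpow_le_rpow_of_nonpos (by norm_num) hX (by norm_num)
    have h3 : (16 : ℝ) ^ (-(1 / 4) : ℝ) = 1 / 2 := by
      rw [show (16 : ℝ) = 2 ^ (4 : ℝ) by norm_num, ← Real.rpow_mul (by norm_num)]
      norm_num [Real.rpow_neg_one]
    linarith
  have e3 : z ^ (-(1 / 4) : ℝ) ≤ 2 * v ^ (-(1 / 8) : ℝ) := by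
    have h1 : (2 * z ^ 2) ^ (-(1 / 8) : ℝ) ≤ v ^ (-(1 / 8) : ℝ) :=
      Real.rpow_le_rpow_of_nonpos hv0 hvz (by norm_num)
    have h2 : (2 * z ^ 2) ^ (-(1 / 8) : ℝ) = 2 ^ (-(1 / 8) : ℝ) * z ^ (-(1 / 4) : ℝ) := by
      rw [Real.mul_rpow (by norm_num) (by positivity), ← Real.rpow_natCast z 2,
        ← Real.rpow_mul hz0.le]
      norm_num
    have h3 : (1 / 2 : ℝ) ≤ 2 ^ (-(1 / 8) : ℝ) := by
      have : (2 : ℝ) ^ (-1 : ℝ) ≤ 2 ^ (-(1 / 8) : ℝ) :=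
        Real.rpow_le_rpow_of_exponent_le (by norm_num) (by norm_num)
      rwa [Real.rpow_neg_one, show (2 : ℝ)⁻¹ = 1 / 2 by norm_num] at this
    rw [h2] at h1
    have h4 : (1 / 2 : ℝ) * z ^ (-(1 / 4) : ℝ) ≤ 2 ^ (-(1 / 8) : ℝ) * z ^ (-(1 / 4) : ℝ) :=
      mul_le_mul_of_nonneg_right h3 (by positivity)
    linarith
  have e4 : z⁻¹ = z ^ (-(1 / 2) : ℝ) * (z ^ (-(1 / 4) : ℝ) * z ^ (-(1 / 4) : ℝ)) := by
    rw [← Real.rpow_add hz0, ← Real.rpow_add hz0, ← Real.rpow_neg_one]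
    norm_num
  have e5 : z⁻¹ ≤ X ^ (-(1 / 2) : ℝ) * (((1 / 2) ^ r * u ^ (-(1 / 4) : ℝ)) *
      (2 * v ^ (-(1 / 8) : ℝ))) := by
    rw [e4]
    gcongr
  have e6 : X * X ^ (-(1 / 2) : ℝ) = X ^ (1 / 2 : ℝ) := by
    nth_rewrite 1 [← Real.rpow_one X]
    rw [← Real.rpow_add hX0]
    norm_num
  calc 2 * X / z = 2 * X * z⁻¹ := div_eq_mul_inv _ _
    _ ≤ 2 * X * (X ^ (-(1 / 2) : ℝ) * (((1 / 2) ^ r * u ^ (-(1 / 4) : ℝ)) *
      (2 * v ^ (-(1 / 8) : ℝ)))) := mul_le_mul_of_nonneg_left e5 (by positivity)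
    _ = 4 * (X * X ^ (-(1 / 2) : ℝ)) * ((1 / 2) ^ r * (u ^ (-(1 / 4) : ℝ) *
      v ^ (-(1 / 8) : ℝ))) := by ring
    _ = _ := by rw [e6]

theorem W_pos {s : ℝ} (hs : 0 < s) (L : ℕ) : 0 < W s L := by
  unfold W
  have h : (2 : ℝ) ^ (-s) < 1 := Real.rpow_lt_one_of_one_lt_of_neg (by norm_num) (by linarith)
  have : 0 < 1 - (2 : ℝ) ^ (-s) := by linarith
  positivity

theorem geom : ∑' r : ℕ, ENNReal.ofReal ((1 / 2 : ℝ) ^ (r + 1)) = 1 := by
  have h : ∀ r : ℕ, ENNReal.ofReal ((1 / 2 : ℝ) ^ (r + 1)) = (2⁻¹ : ℝ≥0∞) ^ (r + 1) := by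
    intro r
    rw [ENNReal.ofReal_pow (by norm_num), one_div, ENNReal.ofReal_inv_of_pos (by norm_num),
      ENNReal.ofReal_ofNat]
  simp only [h]
  rw [ENNReal.tsum_geometric_add_one, ENNReal.one_sub_inv_two, inv_inv]
  exact ENNReal.inv_mul_cancel (by norm_num) (by norm_num)

theorem sep_aux {a : Fin L → ℝ} (hs : Sep a) {c : ℝ} (hc : 1 ≤ c)
    (hb : ∀ (r : ℕ) (k k' : Fin L → ℕ), 1 ≤ |c ^ (r + 1) * pr a k - pr a k'|)
    (K K' : Fin (L + 1) → ℕ) (hK : K ≠ K') (hle : K' (Fin.last L) ≤ K (Fin.last L)) :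
    1 ≤ |pr (Fin.snoc (α := fun _ => ℝ) a c) K - pr (Fin.snoc (α := fun _ => ℝ) a c) K'| := by
  rw [pr_snoc, pr_snoc]
  rcases hle.eq_or_lt with h | h
  · rw [h, ← sub_mul, abs_mul, abs_of_nonneg (by positivity : (0:ℝ) ≤ c ^ K (Fin.last L))]
    have h1 : (fun i : Fin L => K i.castSucc) ≠ fun i => K' i.castSucc := by
      intro h2
      apply hK
      funext i
      refine Fin.lastCases ?_ (fun j => ?_) i
      · exact h.symm
      · exact congrFun h2 j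
    have h2 := hs _ _ h1
    have h3 : 1 ≤ c ^ K (Fin.last L) := one_le_pow₀ hc
    nlinarith
  · obtain ⟨r, hr⟩ : ∃ r : ℕ, K (Fin.last L) = (r + 1) + K' (Fin.last L) :=
      ⟨K (Fin.last L) - K' (Fin.last L) - 1, by omega⟩
    rw [hr, pow_add]
    have h1 := hb r (fun i => K i.castSucc) (fun i => K' i.castSucc)
    have h3 : 1 ≤ c ^ K' (Fin.last L) := one_le_pow₀ hc
    have e : pr a (fun i => K i.castSucc) * (c ^ (r + 1) * c ^ K' (Fin.last L)) -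
        pr a (fun i => K' i.castSucc) * c ^ K' (Fin.last L) =
        c ^ K' (Fin.last L) * (c ^ (r + 1) * pr a (fun i => K i.castSucc) -
          pr a (fun i => K' i.castSucc)) := by ring
    rw [e, abs_mul, abs_of_nonneg (by positivity : (0:ℝ) ≤ c ^ K' (Fin.last L))]
    nlinarith

end EXT

open EXT in
theorem t_EXT (hV : S_VOL) (hS : S_SUM) : S_EXT := by
  intro L a ha hsep Y
  have hM : 0 < W (1 / 4) L := W_pos (by norm_num) L
  have hM' : 0 < W (1 / 8) L := W_pos (by norm_num) L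
  obtain ⟨M, hMd⟩ : ∃ M : ℝ, M = 4 * (W (1 / 4) L * W (1 / 8) L) := ⟨_, rfl⟩
  have hM0 : 0 < M := by rw [hMd]; positivity
  obtain ⟨X, hXd⟩ : ∃ X : ℝ, X = max (max Y 16) ((M + 1) ^ 2) := ⟨_, rfl⟩
  have hXY : Y ≤ X := by rw [hXd]; exact (le_max_left _ _).trans (le_max_left _ _)
  have hX16 : 16 ≤ X := by rw [hXd]; exact (le_max_right _ _).trans (le_max_left _ _)
  have hXM : (M + 1) ^ 2 ≤ X := by rw [hXd]; exact le_max_right _ _
  have hX0 : 0 < X := by linarith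
  have hsm : M * X ^ (1 / 2 : ℝ) < X := by
    have h1 : M + 1 ≤ X ^ (1 / 2 : ℝ) := by
      rw [← Real.sqrt_eq_rpow]
      exact Real.le_sqrt_of_sq_le hXM
    have h2 : X ^ (1 / 2 : ℝ) * X ^ (1 / 2 : ℝ) = X := by
      rw [← Real.sqrt_eq_rpow, Real.mul_self_sqrt hX0.le]
    have h3 : 0 < X ^ (1 / 2 : ℝ) := by positivity
    nlinarith
  -- the union of the bad sets
  have hvol : volume (⋃ r : ℕ, ⋃ k : Fin L → ℕ, ⋃ k' : Fin L → ℕ, Bd X (r + 1) (pr a k) (pr a k')) <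
      volume (Set.Icc X (2 * X)) := by
    have h1 : volume (⋃ r : ℕ, ⋃ k : Fin L → ℕ, ⋃ k' : Fin L → ℕ,
        Bd X (r + 1) (pr a k) (pr a k')) ≤
        ∑' r : ℕ, ∑' k : Fin L → ℕ, ∑' k' : Fin L → ℕ,
          ENNReal.ofReal (4 * X ^ (1 / 2 : ℝ)) * (ENNReal.ofReal ((1 / 2) ^ (r + 1)) *
            (ENNReal.ofReal (pr a k ^ (-(1 / 4) : ℝ)) *
              ENNReal.ofReal (pr a k' ^ (-(1 / 8) : ℝ)))) := by
      refine (measure_iUnion_le _).trans (ENNReal.tsum_le_tsum fun r => ?_)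
      refine (measure_iUnion_le _).trans (ENNReal.tsum_le_tsum fun k => ?_)
      refine (measure_iUnion_le _).trans (ENNReal.tsum_le_tsum fun k' => ?_)
      exact bd_bound hV hX16 (Nat.le_add_left 1 r) (pr_ge_one ha k) (pr_ge_one ha k')
    refine h1.trans_lt ?_
    simp only [ENNReal.tsum_mul_left, ENNReal.tsum_mul_right]
    rw [geom]
    have h2 := hS L (1 / 4) (by norm_num) a ha
    have h3 := hS L (1 / 8) (by norm_num) a ha
    have h4 : ENNReal.ofReal (4 * X ^ (1 / 2 : ℝ)) * (1 *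
        ((∑' k : Fin L → ℕ, ENNReal.ofReal (pr a k ^ (-(1 / 4) : ℝ))) *
          ∑' k : Fin L → ℕ, ENNReal.ofReal (pr a k ^ (-(1 / 8) : ℝ)))) ≤
        ENNReal.ofReal (M * X ^ (1 / 2 : ℝ)) := by
      rw [one_mul]
      calc _ ≤ ENNReal.ofReal (4 * X ^ (1 / 2 : ℝ)) *
            (ENNReal.ofReal (W (1 / 4) L) * ENNReal.ofReal (W (1 / 8) L)) := by gcongr
        _ = _ := by
          rw [← ENNReal.ofReal_mul hM.le, ← ENNReal.ofReal_mul (by positivity), hMd]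
          congr 1
          ring
    refine lt_of_le_of_lt h4 ?_
    rw [Real.volume_Icc, show 2 * X - X = X by ring]
    exact (ENNReal.ofReal_lt_ofReal_iff hX0).2 hsm
  obtain ⟨c, hcJ, hc⟩ : ∃ c ∈ Set.Icc X (2 * X), c ∉ ⋃ r : ℕ, ⋃ k : Fin L → ℕ, ⋃ k' : Fin L → ℕ,
      Bd X (r + 1) (pr a k) (pr a k') := by
    by_contra hcon
    push Not at hcon
    exact absurd (measure_mono (μ := volume) (fun c hc => hcon c hc)) (not_le.2 hvol)
  have hc1 : 1 ≤ c := by linarith [hcJ.1]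
  have hb : ∀ (r : ℕ) (k k' : Fin L → ℕ), 1 ≤ |c ^ (r + 1) * pr a k - pr a k'| := by
    intro r k k'
    by_contra hcon
    push Not at hcon
    apply hc
    simp only [Set.mem_iUnion]
    exact ⟨r, k, k', hcJ, hcon⟩
  refine ⟨c, hXY.trans hcJ.1, fun K K' hK => ?_⟩
  rcases le_total (K' (Fin.last L)) (K (Fin.last L)) with h | h
  · exact sep_aux hsep hc1 hb K K' hK h
  · rw [abs_sub_comm]
    exact sep_aux hsep hc1 hb K' K hK.symm h

end Pool.Agent.NH50.UX
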