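import Pool.Agent.NH50.UX.Stm

/-!
# UX-FIN: iteration of STEP
-/

set_option autoImplicit false

namespace Pool.Agent.NH50.UX

namespace FIN

theorem W_le {s : ℝ} (hs : 0 < s) (L : ℕ) : W s L ≤ W s (L + 1) ∧ 0 ≤ W s L := by
  have h1 : (2 : ℝ) ^ (-s) < 1 := Real.rpow_lt_one_of_one_lt_of_neg (by norm_num) (by linarith)
  have h2 : 0 < (2 : ℝ) ^ (-s) := Real.rpow_pos_of_pos (by norm_num) _
  have h3 : 1 ≤ (1 - (2 : ℝ) ^ (-s))⁻¹ := by
    rw [one_le_inv₀ (by linarith)]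
    linarith
  unfold W
  exact ⟨pow_le_pow_right₀ h3 (Nat.le_succ L), by positivity⟩

theorem PC_pred {κ δ V : ℝ} {L : ℕ} (h : PC κ δ V (L + 1)) : PC κ δ V L where
  k0 := h.k0
  k1 := h.k1
  V1 := h.V1
  dV := h.dV
  h1 := h.h1
  h3 := by
    obtain ⟨h1, h2⟩ := W_le (s := κ / 8) (by linarith [h.k0]) L
    refine lt_of_le_of_lt ?_ h.h3
    have hV : (0 : ℝ) < V := by linarith [h.V1]
    have hp : 0 ≤ V ^ (-(κ / 4)) := (Real.rpow_pos_of_pos hV _).le
    have h4 : W (κ / 8) L ^ 2 ≤ W (κ / 8) (L + 1) ^ 2 := pow_le_pow_left₀ h2 h1 2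
    nlinarith

theorem pr_snoc {L : ℕ} (n : Fin (L + 1) → ℕ) (k : Fin L → ℕ) :
    pr n (Fin.snoc (α := fun _ => ℕ) k 0) = pr (fun i : Fin L => n i.castSucc) k := by
  unfold pr
  rw [Fin.prod_univ_castSucc]
  simp

theorem RF_pred {V : ℝ} {L : ℕ} {n : Fin (L + 1) → ℕ} (h : RF V n) :
    RF V (fun i : Fin L => n i.castSucc) := by
  intro k l hkl hk
  rw [← pr_snoc, ← pr_snoc]
  refine h _ _ (fun hc => hkl ?_) (by rw [pr_snoc]; exact hk)
  funext i
  have := congrFun hc i.castSucc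
  simpa using this

end FIN

open FIN in
theorem t_FIN (h : S_STEP) : S_FIN := by
  intro κ δ V L
  induction L with
  | zero =>
    intro _ n _ _
    refine ⟨fun _ => 1, fun i => i.elim0, fun k l hkl => ?_⟩
    exact absurd (Subsingleton.elim k l) hkl
  | succ L ih =>
    intro hP n hn hRF
    obtain ⟨a, ha, hS⟩ := ih (PC_pred hP) (fun i => n i.castSucc) (fun i => hn _) (RF_pred hRF)
    obtain ⟨c, h1, h2, h3⟩ := h κ δ V L hP n hn hRF a ha hS
    refine ⟨Fin.snoc (α := fun _ => ℝ) a c, fun i => ?_, h3⟩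
    refine Fin.lastCases ?_ (fun i => ?_) i
    · rw [Fin.snoc_last]
      exact ⟨h1, h2⟩
    · rw [Fin.snoc_castSucc]
      exact ha i

end Pool.Agent.NH50.UX
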