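import Pool.Agent.NH50.UX.Stm

/-! # UX-INF: a finite 1-separated family of reals extends to an infinite sequence -/

set_option autoImplicit false

namespace Pool.Agent.NH50.UX

open N44b300f8 MeasureTheory Filter
open scoped ENNReal Nat.Prime

namespace INF

/-- the first `m` terms are a strictly increasing 1-separated family of reals at least `2` -/
def Good (m : ℕ) (f : ℕ → ℝ) : Prop :=
  (∀ i < m, 2 ≤ f i) ∧ (∀ i j, i < j → j < m → f i < f j) ∧ Sep (fun i : Fin m => f i)

lemma step (h : S_EXT) (m : ℕ) (f : ℕ → ℝ) (hf : Good m f) :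
    ∃ c : ℝ, Good (m + 1) (Function.update f m c) := by
  obtain ⟨h1, h2, h3⟩ := hf
  obtain ⟨c, hc, hs⟩ := h m (fun i : Fin m => f i) (fun i => h1 i i.2) h3
    (2 + ∑ i ∈ Finset.range m, |f i|)
  have hnn : 0 ≤ ∑ i ∈ Finset.range m, |f i| := Finset.sum_nonneg fun i _ => abs_nonneg _
  have hlt : ∀ i < m, f i < c := by
    intro i hi
    have := Finset.single_le_sum (f := fun i => |f i|) (fun i _ => abs_nonneg _)
      (Finset.mem_range.2 hi)
    have h4 := le_abs_self (f i)
    linarith
  refine ⟨c, ?_, ?_, ?_⟩
  · intro i hi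
    rcases Nat.lt_succ_iff_lt_or_eq.1 hi with hi | rfl
    · rw [Function.update_of_ne hi.ne]
      exact h1 i hi
    · rw [Function.update_self]
      linarith
  · intro i j hij hj
    rcases Nat.lt_succ_iff_lt_or_eq.1 hj with hj | rfl
    · rw [Function.update_of_ne hj.ne, Function.update_of_ne (hij.trans hj).ne]
      exact h2 i j hij hj
    · rw [Function.update_self, Function.update_of_ne hij.ne]
      exact hlt i hij
  · have e : (fun i : Fin (m + 1) => Function.update f m c i)
        = Fin.snoc (α := fun _ => ℝ) (fun i : Fin m => f i) c := by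
      funext i
      refine Fin.lastCases ?_ (fun i => ?_) i
      · simp
      · rw [Fin.snoc_castSucc]
        simp only [Fin.val_castSucc]
        rw [Function.update_of_ne i.2.ne]
    rw [e]
    exact hs

lemma prod_eq (b : ℕ → ℝ) (M : ℕ) (k : ℕ →₀ ℕ) (hk : k.support ⊆ Finset.range M) :
    beurlingInteger b k = pr (fun i : Fin M => b i) (fun i => k i) := by
  rw [beurlingInteger_def, Finsupp.prod_of_support_subset k hk _ (fun i _ => pow_zero _),
    Finset.prod_range]
  rfl

lemma erdos (b : ℕ → ℝ) (L : ℕ) (hb : ∀ m, Good (L + m) b) : Erdos951Prop b := by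
  intro k l hkl
  obtain ⟨m, hm⟩ := (k.support ∪ l.support).exists_nat_subset_range
  have hM : Finset.range m ⊆ Finset.range (L + m) :=
    Finset.range_subset_range.2 (Nat.le_add_left _ _)
  have hk : k.support ⊆ Finset.range (L + m) :=
    (Finset.subset_union_left.trans hm).trans hM
  have hl : l.support ⊆ Finset.range (L + m) :=
    (Finset.subset_union_right.trans hm).trans hM
  rw [prod_eq b _ k hk, prod_eq b _ l hl]
  refine (hb m).2.2 _ _ fun e => hkl ?_
  ext i
  by_cases hi : i < L + m
  · exact congrFun e ⟨i, hi⟩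
  · have h1 : i ∉ k.support := fun h => hi (Finset.mem_range.1 (hk h))
    have h2 : i ∉ l.support := fun h => hi (Finset.mem_range.1 (hl h))
    rw [Finsupp.notMem_support_iff.1 h1, Finsupp.notMem_support_iff.1 h2]

end INF

open INF in
theorem t_INF (h : S_EXT) : S_INF := by
  intro L a ha hmono hsep
  have hF : ∀ (m : ℕ) (f : ℕ → ℝ), ∃ c : ℝ, Good m f → Good (m + 1) (Function.update f m c) := by
    intro m f
    by_cases hf : Good m f
    · obtain ⟨c, hc⟩ := step h m f hf
      exact ⟨c, fun _ => hc⟩
    · exact ⟨0, fun h => absurd h hf⟩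
  choose F hF using hF
  let f₀ : ℕ → ℝ := fun i => if hi : i < L then a ⟨i, hi⟩ else 0
  let g : ℕ → ℕ → ℝ := fun n => Nat.rec f₀ (fun n f => Function.update f (L + n) (F (L + n) f)) n
  have g0 : g 0 = f₀ := rfl
  have gs : ∀ n, g (n + 1) = Function.update (g n) (L + n) (F (L + n) (g n)) := fun n => rfl
  have hf₀ : ∀ i : Fin L, f₀ i = a i := fun i => by
    simp only [f₀, i.2, dif_pos, Fin.eta]
  have hG : ∀ n, Good (L + n) (g n) := by
    intro n
    induction n with
    | zero =>
      refine ⟨fun i hi => ?_, fun i j hij hj => ?_, ?_⟩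
      · rw [g0, hf₀ ⟨i, hi⟩]
        exact ha _
      · rw [g0, hf₀ ⟨i, hij.trans hj⟩, hf₀ ⟨j, hj⟩]
        exact hmono hij
      · have e : (fun i : Fin (L + 0) => g 0 i) = a := by
          funext i
          exact hf₀ i
        rw [e]
        exact hsep
    | succ n ih =>
      rw [gs]
      exact hF (L + n) (g n) ih
  have hst : ∀ n k i, i < L + n → g (n + k) i = g n i := by
    intro n k i hi
    induction k with
    | zero => rfl
    | succ k ih =>
      rw [← add_assoc, gs, Function.update_of_ne (by omega), ih]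
  let b : ℕ → ℝ := fun i => g (i + 1) i
  have hb : ∀ n i, i < L + n → b i = g n i := by
    intro n i hi
    have h1 := hst n (i + 1) i hi
    have h2 := hst (i + 1) n i (by omega)
    rw [add_comm (i + 1) n] at h2
    exact h2.symm.trans h1
  have hgb : ∀ n, Good (L + n) b := by
    intro n
    obtain ⟨h1, h2, h3⟩ := hG n
    refine ⟨fun i hi => ?_, fun i j hij hj => ?_, ?_⟩
    · rw [hb n i hi]
      exact h1 i hi
    · rw [hb n i (hij.trans hj), hb n j hj]
      exact h2 i j hij hj
    · have e : (fun i : Fin (L + n) => b i) = fun i : Fin (L + n) => g n i := by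
        funext i
        exact hb n i i.2
      rw [e]
      exact h3
  refine ⟨b, ?_, ?_, erdos b L hgb, ?_⟩
  · have := (hgb 1).1 0 (by omega)
    linarith
  · intro i j hij
    exact (hgb (j + 1)).2.1 i j hij (by omega)
  · intro i
    rw [hb 0 i i.2, g0, hf₀]

end Pool.Agent.NH50.UX
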