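import Pool.Agent.NH50.UX.Stm

/-!
# Project UX, part LRG: large products (helper79)
-/

set_option autoImplicit false

namespace Pool.Agent.NH50.UX.LRG

/-- `M ≤ 2 N ^ 2` -/
theorem le_two_sq {κ δ N M : ℝ} (hk : 0 < κ) (hd : δ ≤ 1) (hN : 1 ≤ N) (hM : 1 ≤ M)
    (h : M ^ (1 + κ) ≤ N ^ (1 + κ + δ) + 1) (hs : 0 ≤ 1 + κ + δ) : M ≤ 2 * N ^ 2 := by
  by_contra hc
  rw [not_le] at hc
  have h1 : (2 * N ^ 2) ^ (1 + κ) < M ^ (1 + κ) :=
    Real.rpow_lt_rpow (by positivity) hc (by linarith)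
  have h2 : (2 * N ^ 2) ^ (1 + κ) = 2 ^ (1 + κ) * N ^ (2 * (1 + κ)) := by
    rw [Real.mul_rpow (by norm_num) (by positivity), ← Real.rpow_natCast N 2,
      ← Real.rpow_mul (by linarith)]
    norm_num
  have h3 : (2 : ℝ) ≤ 2 ^ (1 + κ) := by
    calc (2 : ℝ) = 2 ^ (1 : ℝ) := (Real.rpow_one 2).symm
      _ ≤ 2 ^ (1 + κ) := Real.rpow_le_rpow_of_exponent_le (by norm_num) (by linarith)
  have h4 : N ^ (1 + κ + δ) ≤ N ^ (2 * (1 + κ)) :=
    Real.rpow_le_rpow_of_exponent_le hN (by linarith)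
  have h5 : 1 ≤ N ^ (1 + κ + δ) := Real.one_le_rpow hN hs
  have h6 : 2 * N ^ (2 * (1 + κ)) ≤ 2 ^ (1 + κ) * N ^ (2 * (1 + κ)) :=
    mul_le_mul_of_nonneg_right h3 (by positivity)
  linarith

end Pool.Agent.NH50.UX.LRG

namespace Pool.Agent.NH50.UX

open LRG

theorem t_LRG : S_LRG := by
  intro κ δ V L hP N M hN hM hVN h
  have hk := hP.k0
  have hV4 := hP.V1
  have hV0 : 0 < V := by linarith
  have hN0 : 0 < N := by linarith
  have hM0 : 0 < M := by linarith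
  have hd0 : 0 < δ := by
    rw [hP.dV]
    exact Real.rpow_pos_of_pos hV0 _
  have hd1 : δ ≤ 1 := by
    rw [hP.dV]
    exact Real.rpow_le_one_of_one_le_of_nonpos (by linarith) (by linarith)
  have hM2 := le_two_sq hk hd1 hN hM h (by linarith)
  have e : N ^ (-(1 + κ)) = N ^ (-(1 + κ / 2)) * (N ^ (-(κ / 4)) * N ^ (-(κ / 4))) := by
    rw [← Real.rpow_add hN0, ← Real.rpow_add hN0]
    congr 1
    ring
  have f1 : N ^ (-(1 + κ / 2)) ≤ V ^ (-(1 + κ / 2)) :=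
    Real.rpow_le_rpow_of_nonpos hV0 hVN (by linarith)
  have f2 : N ^ (-(κ / 4)) ≤ N ^ (-(κ / 8)) :=
    Real.rpow_le_rpow_of_exponent_le hN (by linarith)
  have f3 : M ^ (κ / 8) ≤ 2 * N ^ (κ / 4) := by
    calc M ^ (κ / 8) ≤ (2 * N ^ 2) ^ (κ / 8) :=
          Real.rpow_le_rpow hM0.le hM2 (by linarith)
      _ = 2 ^ (κ / 8) * N ^ (κ / 4) := by
          rw [Real.mul_rpow (by norm_num) (by positivity), ← Real.rpow_natCast N 2,
            ← Real.rpow_mul hN0.le]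
          congr 2
          push_cast
          ring
      _ ≤ 2 * N ^ (κ / 4) := by
          apply mul_le_mul_of_nonneg_right _ (by positivity)
          calc (2 : ℝ) ^ (κ / 8) ≤ 2 ^ (1 : ℝ) :=
                Real.rpow_le_rpow_of_exponent_le (by norm_num) (by linarith [hP.k1])
            _ = 2 := Real.rpow_one 2
  have f4 : N ^ (-(κ / 4)) ≤ 2 * M ^ (-(κ / 8)) := by
    rw [Real.rpow_neg hN0.le, Real.rpow_neg hM0.le]
    have a1 : 0 < N ^ (κ / 4) := Real.rpow_pos_of_pos hN0 _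
    have a2 : 0 < M ^ (κ / 8) := Real.rpow_pos_of_pos hM0 _
    rw [inv_le_iff_one_le_mul₀ a1]
    have a3 : 2 * (M ^ (κ / 8))⁻¹ * N ^ (κ / 4) = (2 * N ^ (κ / 4)) / M ^ (κ / 8) := by
      field_simp
    rw [a3, le_div_iff₀ a2]
    linarith
  have p1 : 0 < N ^ (-(κ / 4)) := Real.rpow_pos_of_pos hN0 _
  have p2 : 0 < V ^ (-(1 + κ / 2)) := Real.rpow_pos_of_pos hV0 _
  have p3 : 0 < N ^ (-(κ / 8)) := Real.rpow_pos_of_pos hN0 _
  rw [e]
  calc N ^ (-(1 + κ / 2)) * (N ^ (-(κ / 4)) * N ^ (-(κ / 4)))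
      ≤ V ^ (-(1 + κ / 2)) * (N ^ (-(κ / 8)) * (2 * M ^ (-(κ / 8)))) :=
        mul_le_mul f1 (mul_le_mul f2 f4 p1.le p3.le) (by positivity) p2.le
    _ = 2 * V ^ (-(1 + κ / 2)) * (N ^ (-(κ / 8)) * M ^ (-(κ / 8))) := by ring

end Pool.Agent.NH50.UX
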