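import Pool.Agent.NH50.UX.Stm

/-!
# UX-PAR: the parameters
-/

set_option autoImplicit false

namespace Pool.Agent.NH50.UX

open scoped Nat.Prime

namespace PAR

theorem vv_pow (y : ℕ) (s : ℝ) : vv y ^ s = Real.exp ((y : ℝ) ^ 6 * s) := by
  unfold vv
  rw [← Real.exp_mul]

theorem log_vv (y : ℕ) : Real.log (vv y) = (y : ℝ) ^ 6 := Real.log_exp _

theorem vv_k4 (y : ℕ) (hy : 1 ≤ y) : vv y ^ (-(kk y / 4)) = Real.exp (-((y : ℝ) ^ 4 / 16)) := by
  have h0 : (y : ℝ) ≠ 0 := by positivity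
  rw [vv_pow]
  congr 1
  unfold kk
  field_simp
  ring

theorem kk_pos (y : ℕ) (hy : 1 ≤ y) : 0 < kk y := by
  unfold kk
  have h0 : (0 : ℝ) < y := by exact_mod_cast hy
  positivity

theorem kk_le (y : ℕ) (hy : 1 ≤ y) : kk y ≤ 1 := by
  unfold kk
  have h0 : (1 : ℝ) ≤ y := by exact_mod_cast hy
  rw [div_le_one (by positivity)]
  nlinarith

theorem dd_le (y : ℕ) (hy : 2 ≤ y) : dd y ≤ kk y := by
  have h0 : (2 : ℝ) ≤ y := by exact_mod_cast hy
  have hk := kk_pos y (by omega)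
  unfold dd
  rw [vv_pow]
  have h1 : Real.exp ((y : ℝ) ^ 6 * (-(1 + kk y / 4))) ≤ Real.exp (-((y : ℝ) ^ 6)) := by
    apply Real.exp_le_exp.2
    have : 0 ≤ (y : ℝ) ^ 6 * (kk y / 4) := by positivity
    linarith
  refine h1.trans ?_
  rw [Real.exp_neg]
  have h2 : (y : ℝ) ^ 6 + 1 ≤ Real.exp ((y : ℝ) ^ 6) := Real.add_one_le_exp _
  have h3 : 4 * (y : ℝ) ^ 2 ≤ (y : ℝ) ^ 6 + 1 := by
    have h4 : (4 : ℝ) ≤ (y : ℝ) ^ 4 := by
      calc (4 : ℝ) ≤ 2 ^ 4 := by norm_num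
        _ ≤ (y : ℝ) ^ 4 := by gcongr
    nlinarith [sq_nonneg (y : ℝ)]
  unfold kk
  rw [one_div]
  exact inv_anti₀ (by positivity) (h3.trans h2)

theorem base_le (y : ℕ) (hy : 1 ≤ y) : (1 - (2 : ℝ) ^ (-(kk y / 8)))⁻¹ ≤ 96 * (y : ℝ) ^ 2 ∧
    0 ≤ (1 - (2 : ℝ) ^ (-(kk y / 8)))⁻¹ := by
  have h0 : (1 : ℝ) ≤ y := by exact_mod_cast hy
  have hk := kk_pos y hy
  have hk1 := kk_le y hy
  set t : ℝ := Real.log 2 * (kk y / 8) with ht
  have hl1 := Real.log_two_gt_d9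
  have hl2 := Real.log_two_lt_d9
  have ht0 : 0 < t := by positivity
  have ht1 : t ≤ 1 := by
    rw [ht]
    nlinarith
  have h1 : (2 : ℝ) ^ (-(kk y / 8)) = Real.exp (-t) := by
    rw [Real.rpow_def_of_pos (by norm_num)]
    congr 1
    rw [ht]
    ring
  have h2 : Real.exp (-t) ≤ 1 - t / 2 := by
    have h3 : Real.exp (-t) * Real.exp t = 1 := by
      rw [← Real.exp_add]
      simp
    have h4 : t + 1 ≤ Real.exp t := Real.add_one_le_exp _
    have h5 : Real.exp (-t) * (t + 1) ≤ 1 :=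
      (mul_le_mul_of_nonneg_left h4 (Real.exp_pos _).le).trans_eq h3
    have h6 : 1 ≤ (1 - t / 2) * (t + 1) := by nlinarith
    by_contra hc
    rw [not_le] at hc
    have := mul_lt_mul_of_pos_right hc (by linarith : (0 : ℝ) < t + 1)
    linarith
  have h3 : 1 / (96 * (y : ℝ) ^ 2) ≤ 1 - (2 : ℝ) ^ (-(kk y / 8)) := by
    rw [h1]
    have h4 : 1 / (96 * (y : ℝ) ^ 2) ≤ t / 2 := by
      have h5 : kk y / 8 * (1 / 3) = 1 / (96 * (y : ℝ) ^ 2) := by
        unfold kk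
        field_simp
        norm_num
      rw [← h5, ht]
      nlinarith
    linarith
  have h5 : (0 : ℝ) < 1 / (96 * (y : ℝ) ^ 2) := by positivity
  refine ⟨?_, inv_nonneg.2 (h5.le.trans h3)⟩
  have := inv_anti₀ h5 h3
  rwa [one_div, inv_inv] at this

theorem pc (y : ℕ) (hy : 100 ≤ y) (L : ℕ) (hL : L ≤ 2 * y) : PC (kk y) (dd y) (vv y) L := by
  have h0 : (100 : ℝ) ≤ y := by exact_mod_cast hy
  have hy2 : (10000 : ℝ) ≤ (y : ℝ) ^ 2 := by nlinarith
  refine ⟨kk_pos y (by omega), kk_le y (by omega), ?_, rfl, ?_, ?_⟩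
  · unfold vv
    have h2 : (y : ℝ) ^ 6 + 1 ≤ Real.exp ((y : ℝ) ^ 6) := Real.add_one_le_exp _
    have h3 : (4 : ℝ) ≤ (y : ℝ) ^ 6 := by
      calc (4 : ℝ) ≤ 100 ^ 6 := by norm_num
        _ ≤ (y : ℝ) ^ 6 := by gcongr
    linarith
  · rw [log_vv, vv_k4 y (by omega), Real.exp_neg]
    set t : ℝ := (y : ℝ) ^ 4 / 16 with ht
    have ht0 : (12288 : ℝ) ≤ t := by
      rw [ht]
      nlinarith
    have h1 : t ^ 3 / 6 ≤ Real.exp t := by
      have := Real.pow_div_factorial_le_exp t (by linarith) 3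
      simpa [Nat.factorial] using this
    have h2 : 8 * (y : ℝ) ^ 8 ≤ Real.exp t := by
      have h3 : 8 * (y : ℝ) ^ 8 = 2048 * t ^ 2 := by
        rw [ht]
        ring
      rw [h3]
      refine le_trans ?_ h1
      nlinarith [sq_nonneg t]
    have h4 : (0 : ℝ) < Real.exp t := Real.exp_pos t
    unfold kk
    rw [← div_eq_mul_inv, div_le_div_iff₀ h4 (by positivity)]
    calc 2 * (y : ℝ) ^ 6 * (4 * (y : ℝ) ^ 2) = 8 * (y : ℝ) ^ 8 := by ring
      _ ≤ 1 * Real.exp t := by rw [one_mul]; exact h2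
  · rw [vv_k4 y (by omega)]
    obtain ⟨h1, h2⟩ := base_le y (by omega)
    have h3 : W (kk y / 8) L ≤ Real.exp (40 * (y : ℝ) ^ 2) := by
      unfold W
      have h4 : (1 - (2 : ℝ) ^ (-(kk y / 8)))⁻¹ ≤ Real.exp (20 * y) := by
        refine h1.trans ?_
        have h5 : 10 * (y : ℝ) + 1 ≤ Real.exp (10 * y) := Real.add_one_le_exp _
        have h6 : Real.exp (20 * y) = Real.exp (10 * (y : ℝ)) ^ 2 := by
          rw [← Real.exp_nat_mul]
          congr 1
          push_cast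
          ring
        rw [h6]
        nlinarith
      calc ((1 - (2 : ℝ) ^ (-(kk y / 8)))⁻¹) ^ L ≤ (Real.exp (20 * y)) ^ L := by gcongr
        _ ≤ (Real.exp (20 * y)) ^ (2 * y) :=
          pow_le_pow_right₀ (Real.one_le_exp (by positivity)) hL
        _ = Real.exp (40 * (y : ℝ) ^ 2) := by
          rw [← Real.exp_nat_mul]
          congr 1
          push_cast
          ring
    have h5 : 0 ≤ W (kk y / 8) L := by
      unfold W
      exact pow_nonneg h2 _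
    have h6 : W (kk y / 8) L ^ 2 ≤ Real.exp (80 * (y : ℝ) ^ 2) := by
      calc W (kk y / 8) L ^ 2 ≤ Real.exp (40 * (y : ℝ) ^ 2) ^ 2 := by gcongr
        _ = Real.exp (80 * (y : ℝ) ^ 2) := by
          rw [← Real.exp_nat_mul]
          congr 1
          push_cast
          ring
    have h7 : (8 : ℝ) < Real.exp 3 := by
      have := Real.exp_one_gt_d9
      have h8 : Real.exp 3 = Real.exp 1 ^ 3 := by
        rw [← Real.exp_nat_mul]
        norm_num
      rw [h8]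
      calc (8 : ℝ) = 2 ^ 3 := by norm_num
        _ < Real.exp 1 ^ 3 := by gcongr; linarith
    calc 8 * W (kk y / 8) L ^ 2 * Real.exp (-((y : ℝ) ^ 4 / 16))
        ≤ 8 * Real.exp (80 * (y : ℝ) ^ 2) * Real.exp (-((y : ℝ) ^ 4 / 16)) := by gcongr
      _ < Real.exp 3 * Real.exp (80 * (y : ℝ) ^ 2) * Real.exp (-((y : ℝ) ^ 4 / 16)) := by
          gcongr
      _ = Real.exp (3 + 80 * (y : ℝ) ^ 2 - (y : ℝ) ^ 4 / 16) := by
          rw [← Real.exp_add, ← Real.exp_add]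
          congr 1
      _ ≤ 1 := by
          rw [Real.exp_le_one_iff]
          nlinarith

theorem vlt (y : ℕ) (hy : 1 ≤ y) : vv y < 2 ^ (2 ^ (mm y - 2)) := by
  have h1 : 4 * y ^ 6 ≤ 2 ^ (mm y - 2) := by
    have h2 : y < 2 ^ (Nat.log 2 y + 1) := Nat.lt_pow_succ_log_self (by norm_num) y
    have h3 : mm y - 2 = 6 * Nat.log 2 y + 8 := by unfold mm; omega
    rw [h3]
    have h4 : y ^ 6 ≤ (2 ^ (Nat.log 2 y + 1)) ^ 6 := Nat.pow_le_pow_left h2.le 6
    calc 4 * y ^ 6 ≤ 4 * (2 ^ (Nat.log 2 y + 1)) ^ 6 := by omega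
      _ = 2 ^ (6 * Nat.log 2 y + 8) := by
        rw [← pow_mul, show (4 : ℕ) = 2 ^ 2 by norm_num, ← pow_add]
        congr 1
        ring
  have h5 : y ^ 6 ≠ 0 := by positivity
  unfold vv
  have h6 : Real.exp ((y : ℝ) ^ 6) = Real.exp 1 ^ (y ^ 6) := by
    rw [← Real.exp_nat_mul]
    push_cast
    rw [mul_one]
  rw [h6]
  have h7 := Real.exp_one_lt_d9
  calc Real.exp 1 ^ (y ^ 6) < (2 ^ 4 : ℝ) ^ (y ^ 6) := by
        apply pow_lt_pow_left₀ _ (Real.exp_pos 1).le h5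
        linarith
    _ = 2 ^ (4 * y ^ 6) := by rw [← pow_mul]
    _ ≤ 2 ^ (2 ^ (mm y - 2)) := pow_le_pow_right₀ (by norm_num) h1

theorem ypow (y : ℕ) (hy : 2 ≤ y) : (y : ℝ) ^ (1 + kk y + dd y) ≤ y + 1 := by
  have h0 : (2 : ℝ) ≤ y := by exact_mod_cast hy
  have h1 := dd_le y hy
  have hpos : (0 : ℝ) < y := by linarith
  have h2 : (y : ℝ) ^ (1 + kk y + dd y) ≤ (y : ℝ) ^ (1 + 2 * kk y) :=
    Real.rpow_le_rpow_of_exponent_le (by linarith) (by linarith)
  refine h2.trans ?_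
  rw [Real.rpow_add hpos, Real.rpow_one]
  have h3 : (y : ℝ) ^ (2 * kk y) ≤ Real.exp (1 / (2 * y)) := by
    rw [Real.rpow_def_of_pos hpos]
    apply Real.exp_le_exp.2
    have h4 : Real.log y ≤ y := (Real.log_le_sub_one_of_pos hpos).trans (by linarith)
    calc Real.log y * (2 * kk y) ≤ y * (2 * kk y) :=
          mul_le_mul_of_nonneg_right h4 (by linarith [kk_pos y (by omega)])
      _ = 1 / (2 * y) := by
        unfold kk
        field_simp
        norm_num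
  have h5 : Real.exp (1 / (2 * (y : ℝ))) ≤ 1 + 1 / y := by
    set t : ℝ := 1 / (2 * (y : ℝ)) with ht
    have ht0 : 0 < t := by positivity
    have ht1 : t ≤ 1 / 2 := by
      rw [ht]
      apply one_div_le_one_div_of_le (by norm_num) (by linarith)
    have h6 : 1 / (y : ℝ) = 2 * t := by
      rw [ht]
      field_simp
    rw [h6]
    have h7 : 1 - t ≤ Real.exp (-t) := by linarith [Real.add_one_le_exp (-t)]
    have h8 : Real.exp (-t) * Real.exp t = 1 := by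
      rw [← Real.exp_add]
      simp
    have h9 : (1 - t) * Real.exp t ≤ 1 :=
      (mul_le_mul_of_nonneg_right h7 (Real.exp_pos _).le).trans_eq h8
    have h10 : 1 ≤ (1 - t) * (1 + 2 * t) := by nlinarith
    by_contra hc
    rw [not_le] at hc
    have := mul_lt_mul_of_pos_left hc (by linarith : (0 : ℝ) < 1 - t)
    linarith
  calc (y : ℝ) * (y : ℝ) ^ (2 * kk y) ≤ y * (1 + 1 / y) := by
        gcongr
        exact h3.trans h5
    _ = y + 1 := by field_simp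

theorem ee_le (y : ℕ) (hy : 100 ≤ y) : EE y ≤ y := by
  have h0 : (100 : ℝ) ≤ y := by exact_mod_cast hy
  have h1 : ⌈((y : ℝ) + 2) ^ (1 / 4 : ℝ)⌉₊ ≤ y - 1 := by
    rw [Nat.ceil_le]
    have h2 : ((y - 1 : ℕ) : ℝ) = (y : ℝ) - 1 := by
      push_cast [Nat.cast_sub (by omega : 1 ≤ y)]
      ring
    rw [h2]
    have h3 : (y : ℝ) + 2 ≤ ((y : ℝ) - 1) ^ (4 : ℝ) := by
      have h4 : ((y : ℝ) - 1) ^ (4 : ℝ) = ((y : ℝ) - 1) ^ 4 := by
        exact_mod_cast Real.rpow_natCast ((y : ℝ) - 1) 4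
      rw [h4]
      have h5 : (1 : ℝ) ≤ ((y : ℝ) - 1) ^ 2 := by nlinarith
      have h6 : (y : ℝ) + 2 ≤ ((y : ℝ) - 1) ^ 2 := by nlinarith
      nlinarith
    calc ((y : ℝ) + 2) ^ (1 / 4 : ℝ) ≤ (((y : ℝ) - 1) ^ (4 : ℝ)) ^ (1 / 4 : ℝ) :=
          Real.rpow_le_rpow (by linarith) h3 (by norm_num)
      _ = (y : ℝ) - 1 := by
        rw [← Real.rpow_mul (by linarith)]
        norm_num
  unfold EE
  omega

theorem pi_le (y : ℕ) : π y ≤ y := by
  have h : ∀ n : ℕ, π n ≤ n := by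
    intro n
    induction n with
    | zero => simp [Nat.primeCounting]
    | succ n ih =>
      rw [Nat.primeCounting, Nat.primeCounting', Nat.count_succ]
      have : Nat.count Nat.Prime (n + 1) = π n := rfl
      rw [this]
      split_ifs <;> omega
  exact h y

end PAR

theorem t_PAR : S_PAR :=
  ⟨100, fun y hy => ⟨fun L hL => PAR.pc y hy L hL, PAR.vlt y (by omega), PAR.ypow y (by omega),
    PAR.ee_le y hy, PAR.pi_le y⟩⟩

end Pool.Agent.NH50.UX
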