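import Pool.Agent.NH50.UX.Stm

/-! Project UX (helper50), part REL: sets of integers without short multiplicative relations. -/

set_option autoImplicit false

namespace Pool.Agent.NH50.UX

open scoped Nat.Prime

namespace REL

theorem fac_prime {a p : ℕ} (ha : a.Prime) : a.factorization p = if a = p then 1 else 0 := by
  rw [ha.factorization, Finsupp.single_apply]

theorem fac_v {a b p : ℕ} (ha : a.Prime) (hb : b.Prime) :
    (a * b ^ 2).factorization p = (if a = p then 1 else 0) + 2 * (if b = p then 1 else 0) := by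
  rw [Nat.factorization_mul ha.ne_zero (pow_ne_zero 2 hb.ne_zero), Finsupp.add_apply,
    Nat.factorization_pow, Finsupp.smul_apply, fac_prime ha, fac_prime hb, smul_eq_mul]

theorem v_inj {a b c d : ℕ} (ha : a.Prime) (hb : b.Prime) (hc : c.Prime) (hd : d.Prime)
    (hab : a ≠ b) (h : a * b ^ 2 = c * d ^ 2) : b = d := by
  by_contra hne
  have h1 : (a * b ^ 2).factorization b = (c * d ^ 2).factorization b := by rw [h]
  rw [fac_v ha hb, fac_v hc hd, if_neg hab, if_pos rfl] at h1
  split_ifs at h1 with h2 h3 h3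
  · exact hne h3.symm
  · omega
  · exact hne h3.symm
  · omega

theorem v_bd {a b y : ℕ} (ha2 : 2 ≤ a) (hb2 : 2 ≤ b) (ha : a ^ 3 ≤ y) (hb : b ^ 3 ≤ y) :
    2 ≤ a * b ^ 2 ∧ a * b ^ 2 ≤ y ∧ ¬ (a * b ^ 2).Prime := by
  have hb3 : 1 < b ^ 2 := Nat.one_lt_pow (by norm_num) hb2
  refine ⟨?_, ?_, ?_⟩
  · calc 2 = 2 * 1 := rfl
      _ ≤ a * b ^ 2 := Nat.mul_le_mul ha2 hb3.le
  · rcases le_total a b with h | h
    · have : a * b ^ 2 ≤ b ^ 3 := by
        rw [pow_succ' b 2]
        exact Nat.mul_le_mul_right _ h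
      exact this.trans hb
    · have : a * b ^ 2 ≤ a ^ 3 := by
        rw [pow_succ' a 2]
        exact Nat.mul_le_mul_left _ (Nat.pow_le_pow_left h 2)
      exact this.trans ha
  · exact Nat.not_prime_mul (by omega) (by omega)

theorem fac_pr {ι : Type} [Fintype ι] (n k : ι → ℕ) (hn : ∀ i, n i ≠ 0) (p : ℕ) :
    (pr n k).factorization p = ∑ i, k i * (n i).factorization p := by
  unfold pr
  rw [Nat.factorization_prod (fun i _ => pow_ne_zero _ (hn i)), Finsupp.finsetSum_apply]
  refine Finset.sum_congr rfl fun i _ => ?_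
  rw [Nat.factorization_pow, Finsupp.smul_apply, smul_eq_mul]

theorem pr_ge {ι : Type} [Fintype ι] (n k : ι → ℕ) (hn : ∀ i, 2 ≤ n i) (i : ι) :
    2 ^ k i ≤ pr n k := by
  have h1 : n i ^ k i ∣ pr n k := Finset.dvd_prod_of_mem (fun i => n i ^ k i) (Finset.mem_univ i)
  have h2 : 0 < pr n k := Finset.prod_pos fun j _ => pow_pos (by have := hn j; omega) _
  exact (Nat.pow_le_pow_left (hn i) _).trans (Nat.le_of_dvd h2 h1)

end REL

open REL in
theorem t_REL : S_REL := by
  classical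
  intro y E m q hm hq hinj hcube
  have hne : ∀ (e : Fin E) (j : ℕ), j + 1 < m → q e j ≠ q e (j + 1) := by
    intro e j hj h
    have := (hinj e j e (j + 1) (by omega) hj h).2
    omega
  have hqy : ∀ (e : Fin E), ∀ j < m, q e j ≤ y := by
    intro e j hj
    have h1 := (hq e j hj).two_le
    have h2 : q e j ≤ q e j ^ 3 := Nat.le_self_pow (by norm_num) _
    exact h2.trans (hcube e j hj)
  obtain ⟨P, hP⟩ : ∃ P, P = (Finset.range (y + 1)).filter Nat.Prime := ⟨_, rfl⟩
  have hPm : ∀ n, n ∈ P ↔ n ≤ y ∧ n.Prime := by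
    intro n
    rw [hP, Finset.mem_filter, Finset.mem_range, Nat.lt_succ_iff]
  have hPc : P.card = π y := by
    rw [hP, Nat.primeCounting, Nat.primeCounting', Nat.count_eq_card_filter_range]
  obtain ⟨sQ, hsQ⟩ : ∃ s : Finset (Fin E × ℕ), s = Finset.univ ×ˢ Finset.Ico 1 (m - 1) := ⟨_, rfl⟩
  obtain ⟨sV, hsV⟩ : ∃ s : Finset (Fin E × ℕ), s = Finset.univ ×ˢ Finset.range (m - 1) := ⟨_, rfl⟩
  have hsQm : ∀ x, x ∈ sQ ↔ 1 ≤ x.2 ∧ x.2 + 1 < m := by
    intro x
    rw [hsQ, Finset.mem_product, Finset.mem_Ico]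
    constructor
    · rintro ⟨-, h1, h2⟩
      exact ⟨h1, by omega⟩
    · rintro ⟨h1, h2⟩
      exact ⟨Finset.mem_univ _, h1, by omega⟩
  have hsVm : ∀ x, x ∈ sV ↔ x.2 + 1 < m := by
    intro x
    rw [hsV, Finset.mem_product, Finset.mem_range]
    constructor
    · rintro ⟨-, h1⟩
      omega
    · intro h1
      exact ⟨Finset.mem_univ _, by omega⟩
  obtain ⟨v, hv⟩ : ∃ v : Fin E × ℕ → ℕ, v = fun x => q x.1 x.2 * q x.1 (x.2 + 1) ^ 2 := ⟨_, rfl⟩
  have hvx : ∀ x, v x = q x.1 x.2 * q x.1 (x.2 + 1) ^ 2 := fun x => by rw [hv]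
  obtain ⟨Q, hQ⟩ : ∃ Q, Q = sQ.image (fun x => q x.1 x.2) := ⟨_, rfl⟩
  obtain ⟨Vs, hVs⟩ : ∃ Vs, Vs = sV.image v := ⟨_, rfl⟩
  have hqinj : Set.InjOn (fun x : Fin E × ℕ => q x.1 x.2) sQ := by
    intro x hx x' hx' h
    have h1 := (hsQm x).1 hx
    have h2 := (hsQm x').1 hx'
    obtain ⟨e1, e2⟩ := hinj x.1 x.2 x'.1 x'.2 (by omega) (by omega) h
    exact Prod.ext e1 e2
  have hvinj : Set.InjOn v sV := by
    intro x hx x' hx' h
    have h1 := (hsVm x).1 hx
    have h2 := (hsVm x').1 hx'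
    rw [hvx, hvx] at h
    have h3 := v_inj (hq _ _ (by omega)) (hq _ _ h1) (hq _ _ (by omega)) (hq _ _ h2)
      (hne _ _ h1) h
    obtain ⟨e1, e2⟩ := hinj x.1 (x.2 + 1) x'.1 (x'.2 + 1) h1 h2 h3
    exact Prod.ext e1 (by omega)
  have hvy : ∀ x ∈ sV, 2 ≤ v x ∧ v x ≤ y ∧ ¬ (v x).Prime := by
    intro x hx
    have h1 := (hsVm x).1 hx
    rw [hvx]
    exact v_bd (hq x.1 x.2 (by omega)).two_le (hq x.1 (x.2 + 1) h1).two_le
      (hcube x.1 x.2 (by omega)) (hcube x.1 (x.2 + 1) h1)
  have hQP : Q ⊆ P := by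
    intro n hn
    rw [hQ, Finset.mem_image] at hn
    obtain ⟨x, hx, rfl⟩ := hn
    have h1 := (hsQm x).1 hx
    exact (hPm _).2 ⟨hqy _ _ (by omega), hq _ _ (by omega)⟩
  have hdisj : Disjoint (P \ Q) Vs := by
    rw [Finset.disjoint_left]
    intro n hn hn'
    rw [hVs, Finset.mem_image] at hn'
    obtain ⟨x, hx, rfl⟩ := hn'
    exact (hvy x hx).2.2 ((hPm _).1 (Finset.mem_sdiff.1 hn).1).2
  obtain ⟨I, hI⟩ : ∃ I, I = (P \ Q) ∪ Vs := ⟨_, rfl⟩
  have hI2 : ∀ n ∈ I, 2 ≤ n ∧ n ≤ y := by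
    intro n hn
    rw [hI, Finset.mem_union] at hn
    rcases hn with hn | hn
    · have h1 := (hPm n).1 (Finset.mem_sdiff.1 hn).1
      exact ⟨h1.2.two_le, h1.1⟩
    · rw [hVs, Finset.mem_image] at hn
      obtain ⟨x, hx, rfl⟩ := hn
      exact ⟨(hvy x hx).1, (hvy x hx).2.1⟩
  refine ⟨I, hI2, ?_, ?_⟩
  · rw [hI, Finset.card_union_of_disjoint hdisj, Finset.card_sdiff_of_subset hQP, hPc, hQ,
      Finset.card_image_of_injOn hqinj, hVs, Finset.card_image_of_injOn hvinj]
    have h1 : sQ.card = E * (m - 2) := by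
      rw [hsQ, Finset.card_product, Finset.card_univ, Fintype.card_fin, Nat.card_Ico]
      congr 1
    have h2 : sV.card = E * (m - 2) + E := by
      rw [hsV, Finset.card_product, Finset.card_univ, Fintype.card_fin, Finset.card_range,
        show m - 1 = (m - 2) + 1 by omega, mul_add, mul_one]
    have h3 : sQ.card ≤ π y := by
      rw [← hPc, ← Finset.card_image_of_injOn hqinj, ← hQ]
      exact Finset.card_le_card hQP
    omega
  · intro V hV k l hkl hkV heq
    apply hkl
    have hI0 : ∀ i : I, (i : ℕ) ≠ 0 := fun i => by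
      have := (hI2 i i.2).1
      omega
    have hI2' : ∀ i : I, 2 ≤ (i : ℕ) := fun i => (hI2 i i.2).1
    -- the exponents
    obtain ⟨zz, hzz⟩ : ∃ zz : ℕ → ℤ, ∀ i : I, zz i = (k i : ℤ) - l i :=
      ⟨fun n => if h : n ∈ I then (k ⟨n, h⟩ : ℤ) - l ⟨n, h⟩ else 0, fun i => dif_pos i.2⟩
    have hsum : ∀ p : ℕ, ∑ n ∈ I, zz n * (n.factorization p : ℤ) = 0 := by
      intro p
      have h1 := fac_pr (fun i : I => (i : ℕ)) k hI0 p
      have h2 := fac_pr (fun i : I => (i : ℕ)) l hI0 p
      rw [heq, h2] at h1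
      rw [← Finset.sum_coe_sort I (fun n => zz n * (n.factorization p : ℤ))]
      have h3 : ∀ i : I, zz i * ((i : ℕ).factorization p : ℤ) =
          ((k i * (i : ℕ).factorization p : ℕ) : ℤ) - ((l i * (i : ℕ).factorization p : ℕ) : ℤ) := by
        intro i
        rw [hzz]
        push_cast
        ring
      rw [Finset.sum_congr rfl fun i _ => h3 i, Finset.sum_sub_distrib, ← Nat.cast_sum,
        ← Nat.cast_sum, h1, sub_self]
    have hG : ∀ p : ℕ, (if p ∈ P \ Q then zz p else 0) +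
        ∑ x ∈ sV, zz (v x) * ((if q x.1 x.2 = p then 1 else 0) +
          2 * (if q x.1 (x.2 + 1) = p then 1 else 0)) = 0 := by
      intro p
      have h1 := hsum p
      rw [hI, Finset.sum_union hdisj, hVs, Finset.sum_image hvinj] at h1
      refine Eq.trans ?_ h1
      congr 1
      · have h2 : ∀ n ∈ P \ Q, zz n * (n.factorization p : ℤ) = if p = n then zz n else 0 := by
          intro n hn
          rw [fac_prime ((hPm n).1 (Finset.mem_sdiff.1 hn).1).2]
          by_cases h : n = p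
          · rw [if_pos h, if_pos h.symm]
            simp
          · rw [if_neg h, if_neg (fun h' => h h'.symm)]
            simp
        rw [Finset.sum_congr rfl h2, Finset.sum_ite_eq]
      · refine Finset.sum_congr rfl fun x hx => ?_
        have h3 := (hsVm x).1 hx
        rw [hvx, fac_v (hq _ _ (by omega)) (hq _ _ h3)]
        push_cast
        rfl
    -- interior primes
    have hstep : ∀ (e : Fin E) (j : ℕ), j + 2 < m →
        zz (v (e, j + 1)) = -2 * zz (v (e, j)) := by
      intro e j hj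
      have h1 := hG (q e (j + 1))
      have h2 : q e (j + 1) ∉ P \ Q := by
        intro h
        apply (Finset.mem_sdiff.1 h).2
        rw [hQ, Finset.mem_image]
        exact ⟨(e, j + 1), (hsQm _).2 ⟨by simp, by simpa using hj⟩, rfl⟩
      rw [if_neg h2, zero_add] at h1
      have h3 : ∀ x ∈ sV, zz (v x) * ((if q x.1 x.2 = q e (j + 1) then 1 else 0) +
          2 * (if q x.1 (x.2 + 1) = q e (j + 1) then 1 else 0)) =
          (if x = (e, j + 1) then zz (v x) else 0) + (if x = (e, j) then 2 * zz (v x) else 0) := by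
        intro x hx
        have h4 := (hsVm x).1 hx
        have h5 : (q x.1 x.2 = q e (j + 1)) ↔ x = (e, j + 1) := by
          constructor
          · intro h
            obtain ⟨a1, a2⟩ := hinj _ _ _ _ (by omega) (by omega) h
            exact Prod.ext a1 a2
          · intro h
            rw [h]
        have h6 : (q x.1 (x.2 + 1) = q e (j + 1)) ↔ x = (e, j) := by
          constructor
          · intro h
            obtain ⟨a1, a2⟩ := hinj _ _ _ _ h4 (by omega) h
            exact Prod.ext a1 (by simpa using a2)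
          · intro h
            rw [h]
        simp only [h5, h6]
        split_ifs <;> ring
      rw [Finset.sum_congr rfl h3, Finset.sum_add_distrib, Finset.sum_ite_eq', Finset.sum_ite_eq',
        if_pos ((hsVm _).2 (by simpa using hj)),
        if_pos ((hsVm _).2 (show j + 1 < m by omega))] at h1
      linarith
    have hpow : ∀ (e : Fin E) (j : ℕ), j + 1 < m → zz (v (e, j)) = (-2) ^ j * zz (v (e, 0)) := by
      intro e j
      induction j with
      | zero => intro _; rw [pow_zero, one_mul]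
      | succ j ih =>
        intro hj
        rw [hstep e j hj, ih (by omega), pow_succ]
        ring
    have hz0 : ∀ e : Fin E, zz (v (e, 0)) = 0 := by
      intro e
      by_contra hcon
      have h1 := hpow e (m - 2) (by omega)
      have hmem : v (e, m - 2) ∈ I := by
        rw [hI, Finset.mem_union, hVs]
        exact Or.inr (Finset.mem_image_of_mem v ((hsVm _).2 (show m - 2 + 1 < m by omega)))
      have h2 : (2 : ℤ) ^ (m - 2) ≤ |zz (v (e, m - 2))| := by
        rw [h1, abs_mul, abs_pow, abs_neg, abs_two]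
        have h3 : 1 ≤ |zz (v (e, 0))| := Int.one_le_abs hcon
        have h4 : (0 : ℤ) < 2 ^ (m - 2) := by positivity
        nlinarith
      have h3 := hzz ⟨v (e, m - 2), hmem⟩
      have h3' : zz (v (e, m - 2)) = (k ⟨v (e, m - 2), hmem⟩ : ℤ) - l ⟨v (e, m - 2), hmem⟩ := h3
      rw [h3'] at h2
      have hbig : ∀ c : I → ℕ, 2 ^ (m - 2) ≤ c ⟨v (e, m - 2), hmem⟩ →
          V < ((pr (fun i : I => (i : ℕ)) c : ℕ) : ℝ) := by
        intro c hc
        have h4 := pr_ge (fun i : I => (i : ℕ)) c hI2' ⟨v (e, m - 2), hmem⟩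
        have h5 : 2 ^ 2 ^ (m - 2) ≤ pr (fun i : I => (i : ℕ)) c :=
          (Nat.pow_le_pow_right (by norm_num) hc).trans h4
        have h6 : ((2 ^ 2 ^ (m - 2) : ℕ) : ℝ) ≤ ((pr (fun i : I => (i : ℕ)) c : ℕ) : ℝ) := by
          exact_mod_cast h5
        push_cast at h6
        exact lt_of_lt_of_le hV h6
      have h7 : 2 ^ (m - 2) ≤ k ⟨v (e, m - 2), hmem⟩ ∨ 2 ^ (m - 2) ≤ l ⟨v (e, m - 2), hmem⟩ := by
        by_contra hno
        rw [not_or, not_le, not_le] at hno
        have h8 : ((k ⟨v (e, m - 2), hmem⟩ : ℕ) : ℤ) < 2 ^ (m - 2) := by exact_mod_cast hno.1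
        have h9 : ((l ⟨v (e, m - 2), hmem⟩ : ℕ) : ℤ) < 2 ^ (m - 2) := by exact_mod_cast hno.2
        have h10 : (0 : ℤ) ≤ (k ⟨v (e, m - 2), hmem⟩ : ℕ) := Nat.cast_nonneg _
        have h11 : (0 : ℤ) ≤ (l ⟨v (e, m - 2), hmem⟩ : ℕ) := Nat.cast_nonneg _
        rcases abs_cases ((k ⟨v (e, m - 2), hmem⟩ : ℤ) - l ⟨v (e, m - 2), hmem⟩) with h | h <;>
          linarith [h.1]
      rcases h7 with h7 | h7
      · exact absurd hkV (not_le.2 (hbig k h7))
      · rw [heq] at hkV
        exact absurd hkV (not_le.2 (hbig l h7))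
    have hzV : ∀ x ∈ sV, zz (v x) = 0 := by
      intro x hx
      have h1 := hpow x.1 x.2 ((hsVm x).1 hx)
      rw [hz0, mul_zero] at h1
      exact h1
    have hzI : ∀ n ∈ I, zz n = 0 := by
      intro n hn
      rw [hI, Finset.mem_union] at hn
      rcases hn with hn | hn
      · have h1 := hG n
        rw [if_pos hn, Finset.sum_eq_zero, add_zero] at h1
        · exact h1
        · intro x hx
          rw [hzV x hx, zero_mul]
      · rw [hVs, Finset.mem_image] at hn
        obtain ⟨x, hx, rfl⟩ := hn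
        exact hzV x hx
    funext i
    have h1 := hzz i
    rw [hzI i i.2] at h1
    omega

end Pool.Agent.NH50.UX
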