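import Pool.Agent.NH50.UX.Stm

/-! Job UX-SML: small products (`S_SML`). -/

set_option autoImplicit false

namespace Pool.Agent.NH50.UX.SML

open Pool.Agent.NH50.UX

theorem exp_le {t : ℝ} (h0 : 0 ≤ t) (h1 : t ≤ 1 / 2) : Real.exp t ≤ 1 + 2 * t := by
  have h2 : 1 - t ≤ Real.exp (-t) := by
    have := Real.add_one_le_exp (-t)
    linarith
  have h3 : Real.exp t * Real.exp (-t) = 1 := by
    rw [← Real.exp_add, add_neg_cancel, Real.exp_zero]
  have h4 : Real.exp t * (1 - t) ≤ 1 :=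
    (mul_le_mul_of_nonneg_left h2 (Real.exp_pos t).le).trans h3.le
  have h5 : (1 : ℝ) ≤ (1 + 2 * t) * (1 - t) := by nlinarith
  have h6 : (0 : ℝ) < 1 - t := by linarith
  exact le_of_mul_le_mul_right (h4.trans h5) h6

theorem low {N κ : ℝ} (hN : 1 ≤ N) (hκ : 0 < κ) :
    N ^ (1 + κ) + (1 + κ) * N ^ κ ≤ (N + 1) ^ (1 + κ) := by
  have hN0 : 0 < N := by linarith
  have h1 := one_add_mul_self_le_rpow_one_add (s := 1 / N) (p := 1 + κ)
    (by have : 0 < 1 / N := by positivity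
        linarith) (by linarith)
  have h2 : N + 1 = N * (1 + 1 / N) := by field_simp
  rw [h2, Real.mul_rpow hN0.le (by positivity)]
  have h3 : N ^ (1 + κ) = N * N ^ κ := by rw [Real.rpow_add hN0, Real.rpow_one]
  have h4 : N ^ (1 + κ) + (1 + κ) * N ^ κ = N ^ (1 + κ) * (1 + (1 + κ) * (1 / N)) := by
    rw [h3]
    field_simp
  rw [h4]
  exact mul_le_mul_of_nonneg_left h1 (Real.rpow_nonneg hN0.le _)

end Pool.Agent.NH50.UX.SML

namespace Pool.Agent.NH50.UX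

theorem t_SML : S_SML := by
  intro κ δ V L hP N M hN hNM hNV
  have hV0 : 0 < V := by linarith [hP.V1]
  have hN1 : (1 : ℝ) ≤ N := by exact_mod_cast hN
  have hN0 : (0 : ℝ) < N := by linarith
  have hlogV : 0 ≤ Real.log V := Real.log_nonneg (by linarith [hP.V1])
  have hlogN : 0 ≤ Real.log N := Real.log_nonneg hN1
  have hlog : Real.log N ≤ Real.log V := Real.log_le_log hN0 hNV
  have hd0 : 0 < δ := by
    rw [hP.dV]
    exact Real.rpow_pos_of_pos hV0 _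
  have hVd : V * δ = V ^ (-(κ / 4)) := by
    rw [hP.dV]
    have h : V ^ (-(κ / 4)) = V ^ (1 + -(1 + κ / 4)) := by congr 1; ring
    rw [h, Real.rpow_add hV0, Real.rpow_one]
  have h1 : 2 * Real.log V * (V * δ) ≤ κ := by rw [hVd]; exact hP.h1
  -- the exponent
  set t : ℝ := δ * Real.log N with ht
  have ht0 : 0 ≤ t := mul_nonneg hd0.le hlogN
  have htV : t ≤ δ * Real.log V := mul_le_mul_of_nonneg_left hlog hd0.le
  have hVt : 2 * (V * t) ≤ κ := by
    have h2 : V * t ≤ V * (δ * Real.log V) := mul_le_mul_of_nonneg_left htV hV0.le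
    calc 2 * (V * t) ≤ 2 * (V * (δ * Real.log V)) := by linarith
      _ = 2 * Real.log V * (V * δ) := by ring
      _ ≤ κ := h1
  have ht2 : t ≤ 1 / 2 := by
    have h2 : 4 * t ≤ V * t := mul_le_mul_of_nonneg_right hP.V1 ht0
    linarith [hP.k1]
  have hNd : (N : ℝ) ^ δ = Real.exp t := by
    rw [Real.rpow_def_of_pos hN0, ht, mul_comm]
  have h3 : (N : ℝ) ^ δ ≤ 1 + 2 * t := by
    rw [hNd]
    exact SML.exp_le ht0 ht2
  have hNt : 2 * (N * t) ≤ κ := by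
    have h2 : (N : ℝ) * t ≤ V * t := mul_le_mul_of_nonneg_right hNV ht0
    linarith
  have hNk : 1 ≤ (N : ℝ) ^ κ := Real.one_le_rpow hN1 hP.k0.le
  have h4 : (N : ℝ) ^ (1 + κ + δ) ≤ (N : ℝ) ^ (1 + κ) + κ * (N : ℝ) ^ κ := by
    have e1 : (N : ℝ) ^ (1 + κ) = N * (N : ℝ) ^ κ := by rw [Real.rpow_add hN0, Real.rpow_one]
    rw [Real.rpow_add hN0 (1 + κ) δ]
    calc (N : ℝ) ^ (1 + κ) * (N : ℝ) ^ δ ≤ (N : ℝ) ^ (1 + κ) * (1 + 2 * t) :=
          mul_le_mul_of_nonneg_left h3 (Real.rpow_nonneg hN0.le _)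
      _ = (N : ℝ) ^ (1 + κ) + (2 * (N * t)) * (N : ℝ) ^ κ := by rw [e1]; ring
      _ ≤ (N : ℝ) ^ (1 + κ) + κ * (N : ℝ) ^ κ := by
          have := mul_le_mul_of_nonneg_right hNt (by linarith : (0 : ℝ) ≤ (N : ℝ) ^ κ)
          linarith
  have h5 := SML.low hN1 hP.k0
  have h6 : ((N : ℝ) + 1) ^ (1 + κ) ≤ (M : ℝ) ^ (1 + κ) := by
    refine Real.rpow_le_rpow (by linarith) ?_ (by linarith [hP.k0])
    exact_mod_cast hNM
  linarith

end Pool.Agent.NH50.UX
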