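import Pool.Agent.NH50.UX.Stm

/-! # UX-STEP: one more element -/

set_option autoImplicit false

namespace Pool.Agent.NH50.UX

open MeasureTheory Filter
open scoped ENNReal

namespace STEP

theorem pr_snoc {R : Type} [CommMonoid R] {L : ℕ} (a : Fin L → R) (c : R) (K : Fin (L + 1) → ℕ) :
    pr (Fin.snoc (α := fun _ => R) a c : Fin (L + 1) → R) K =
      pr a (fun i => K i.castSucc) * c ^ K (Fin.last L) := by
  unfold pr
  rw [Fin.prod_univ_castSucc]
  simp only [Fin.snoc_castSucc, Fin.snoc_last]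

theorem pr_snoc' {R : Type} [CommMonoid R] {L : ℕ} (n : Fin (L + 1) → R) (k : Fin L → ℕ) :
    pr n (Fin.snoc (α := fun _ => ℕ) k 0 : Fin (L + 1) → ℕ) = pr (fun i => n i.castSucc) k := by
  unfold pr
  rw [Fin.prod_univ_castSucc]
  simp only [Fin.snoc_castSucc, Fin.snoc_last, pow_zero, mul_one]

theorem pr_pow {ι : Type} [Fintype ι] (m : ι → ℕ) (k : ι → ℕ) (e : ℝ) :
    ((pr m k : ℕ) : ℝ) ^ e = ∏ i, ((m i : ℝ) ^ e) ^ k i := by
  unfold pr
  push_cast
  rw [← Real.finsetProd_rpow _ _ (fun i _ => by positivity)]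
  refine Finset.prod_congr rfl fun i _ => ?_
  rw [Real.rpow_pow_comm (Nat.cast_nonneg _)]

theorem pr_bound {ι : Type} [Fintype ι] {m : ι → ℕ} {b : ι → ℝ} {e f : ℝ}
    (h : ∀ i, (m i : ℝ) ^ e ≤ b i ∧ b i ≤ (m i : ℝ) ^ f) (k : ι → ℕ) :
    ((pr m k : ℕ) : ℝ) ^ e ≤ pr b k ∧ pr b k ≤ ((pr m k : ℕ) : ℝ) ^ f := by
  have h0 : ∀ i, 0 ≤ (m i : ℝ) ^ e := fun i => by positivity
  rw [pr_pow, pr_pow]
  constructor
  · exact Finset.prod_le_prod (fun i _ => pow_nonneg (h0 i) _)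
      fun i _ => pow_le_pow_left₀ (h0 i) (h i).1 _
  · exact Finset.prod_le_prod (fun i _ => pow_nonneg ((h0 i).trans (h i).1) _)
      fun i _ => pow_le_pow_left₀ ((h0 i).trans (h i).1) (h i).2 _

theorem pr_pos {ι : Type} [Fintype ι] {m : ι → ℕ} (h : ∀ i, 2 ≤ m i) (k : ι → ℕ) : 1 ≤ pr m k :=
  Nat.one_le_iff_ne_zero.2 (Finset.prod_ne_zero_iff.2 fun i _ =>
    pow_ne_zero _ (by have := h i; omega))

theorem pr_cast {ι : Type} [Fintype ι] (m : ι → ℕ) (k : ι → ℕ) :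
    pr (fun i => (m i : ℝ)) k = ((pr m k : ℕ) : ℝ) := by
  unfold pr
  push_cast
  rfl

theorem sep_snoc {L : ℕ} {a : Fin L → ℝ} (ha : Sep a) {c : ℝ} (hc : 1 ≤ c)
    (h : ∀ (K : Fin (L + 1) → ℕ) (k' : Fin L → ℕ), 1 ≤ K (Fin.last L) →
      1 ≤ |c ^ K (Fin.last L) * pr a (fun i => K i.castSucc) - pr a k'|) :
    Sep (Fin.snoc (α := fun _ => ℝ) a c) := by
  have key : ∀ K K' : Fin (L + 1) → ℕ, K ≠ K' → K' (Fin.last L) ≤ K (Fin.last L) →
      1 ≤ |pr (Fin.snoc (α := fun _ => ℝ) a c : Fin (L + 1) → ℝ) K -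
        pr (Fin.snoc (α := fun _ => ℝ) a c : Fin (L + 1) → ℝ) K'| := by
    intro K K' hne hle
    rw [pr_snoc, pr_snoc]
    obtain ⟨r, hr⟩ := Nat.exists_eq_add_of_le hle
    have hcs : 1 ≤ c ^ K' (Fin.last L) := one_le_pow₀ hc
    rcases Nat.eq_zero_or_pos r with h0 | h0
    · rw [h0, add_zero] at hr
      have hk : (fun i : Fin L => K i.castSucc) ≠ fun i : Fin L => K' i.castSucc := by
        intro he
        apply hne
        funext i
        refine Fin.lastCases hr (fun i => ?_) i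
        exact congrFun he i
      have h1 := ha _ _ hk
      rw [hr, ← sub_mul, abs_mul, abs_of_nonneg (zero_le_one.trans hcs)]
      exact one_le_mul_of_one_le_of_one_le h1 hcs
    · have h1 := h (Fin.snoc (α := fun _ => ℕ) (fun i => K i.castSucc) r)
        (fun i => K' i.castSucc) (by rw [Fin.snoc_last]; exact h0)
      simp only [Fin.snoc_castSucc, Fin.snoc_last] at h1
      have e : pr a (fun i => K i.castSucc) * c ^ K (Fin.last L) -
          pr a (fun i => K' i.castSucc) * c ^ K' (Fin.last L) =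
          (c ^ r * pr a (fun i => K i.castSucc) - pr a (fun i => K' i.castSucc)) *
            c ^ K' (Fin.last L) := by
        rw [hr, pow_add]
        ring
      rw [e, abs_mul, abs_of_nonneg (zero_le_one.trans hcs)]
      exact one_le_mul_of_one_le_of_one_le h1 hcs
  intro K K' hne
  rcases le_total (K' (Fin.last L)) (K (Fin.last L)) with hle | hle
  · exact key K K' hne hle
  · rw [abs_sub_comm]
    exact key K' K hne.symm hle

section main

variable {κ δ V : ℝ} {L : ℕ} (P : PC κ δ V (L + 1))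

include P

theorem V0 : 0 < V := by linarith [P.V1]

theorem d0 : 0 < δ := by
  rw [P.dV]
  exact Real.rpow_pos_of_pos (V0 P) _

theorem W_one (M : ℕ) : 1 ≤ W (κ / 8) M ∧ W (κ / 8) M ≤ W (κ / 8) (M + 1) := by
  have hk := P.k0
  have h1 : (2 : ℝ) ^ (-(κ / 8)) < 1 := Real.rpow_lt_one_of_one_lt_of_neg one_lt_two (by linarith)
  have h2 : (0 : ℝ) < (2 : ℝ) ^ (-(κ / 8)) := Real.rpow_pos_of_pos two_pos _
  have h3 : 1 ≤ (1 - (2 : ℝ) ^ (-(κ / 8)))⁻¹ := (one_le_inv₀ (by linarith)).2 (by linarith)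
  constructor
  · exact one_le_pow₀ h3
  · unfold W
    exact pow_le_pow_right₀ h3 (Nat.le_succ _)

/-- the key estimate -/
theorem bound (h1 : S_SML) (h2 : S_LRG) {n : Fin (L + 1) → ℕ} (hn : ∀ i, 2 ≤ n i) (hRF : RF V n)
    {a : Fin L → ℝ}
    (ha : ∀ i, (n i.castSucc : ℝ) ^ (1 + κ) ≤ a i ∧ a i ≤ (n i.castSucc : ℝ) ^ (1 + κ + δ))
    {c : ℝ} (hcA : (n (Fin.last L) : ℝ) ^ (1 + κ) ≤ c)
    (hcB : c ≤ (n (Fin.last L) : ℝ) ^ (1 + κ + δ)) {K : Fin (L + 1) → ℕ} {k' : Fin L → ℕ}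
    (hK : 1 ≤ K (Fin.last L))
    (hc : |c ^ K (Fin.last L) * pr a (fun i => K i.castSucc) - pr a k'| < 1) :
    ((pr n K : ℕ) : ℝ) ^ (-(1 + κ)) ≤ 2 * V ^ (-(1 + κ / 2)) *
      (((pr n K : ℕ) : ℝ) ^ (-(κ / 8)) *
        ((pr (fun i => n i.castSucc) k' : ℕ) : ℝ) ^ (-(κ / 8))) := by
  have hb : ∀ i : Fin (L + 1),
      (n i : ℝ) ^ (1 + κ) ≤ (Fin.snoc (α := fun _ => ℝ) a c : Fin (L + 1) → ℝ) i ∧
      (Fin.snoc (α := fun _ => ℝ) a c : Fin (L + 1) → ℝ) i ≤ (n i : ℝ) ^ (1 + κ + δ) := by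
    intro i
    refine Fin.lastCases ?_ (fun i => ?_) i
    · rw [Fin.snoc_last]
      exact ⟨hcA, hcB⟩
    · rw [Fin.snoc_castSucc]
      exact ha i
  obtain ⟨g1, g2⟩ := pr_bound hb K
  rw [pr_snoc, mul_comm] at g1 g2
  obtain ⟨g3, g4⟩ := pr_bound ha k'
  have hn' : ∀ i : Fin L, 2 ≤ n i.castSucc := fun i => hn _
  have hN1 := pr_pos hn K
  have hN2 := pr_pos hn' k'
  rw [abs_lt] at hc
  set N1 := pr n K with hN1d
  set N2 := pr (fun i => n i.castSucc) k' with hN2d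
  have hV : V ≤ (N1 : ℝ) := by
    by_contra hlt
    rw [not_le] at hlt
    rcases lt_trichotomy N1 N2 with h | h | h
    · have h3 := h1 κ δ V (L + 1) P N1 N2 hN1 h hlt.le
      linarith [hc.1]
    · have h4 : K ≠ (Fin.snoc (α := fun _ => ℕ) k' 0 : Fin (L + 1) → ℕ) := by
        intro he
        rw [he, Fin.snoc_last] at hK
        omega
      have h5 := hRF _ _ h4 (by rw [← hN1d]; exact hlt.le)
      rw [pr_snoc'] at h5
      exact h5 h
    · have h3 := h1 κ δ V (L + 1) P N2 N1 hN2 h ((Nat.cast_le.2 h.le).trans hlt.le)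
      linarith [hc.2]
  refine h2 κ δ V (L + 1) P N1 N2 (by exact_mod_cast hN1) (by exact_mod_cast hN2) hV ?_
  linarith [hc.1]

end main

/-- the exceptional set -/
def Bd {L : ℕ} (A B : ℝ) (a : Fin L → ℝ) (x : (Fin (L + 1) → ℕ) × (Fin L → ℕ)) : Set ℝ :=
  {c | c ∈ Set.Icc A B ∧ 1 ≤ x.1 (Fin.last L) ∧
    |c ^ x.1 (Fin.last L) * pr a (fun i => x.1 i.castSucc) - pr a x.2| < 1}

theorem vol_bd (hV : S_VOL) (h1 : S_SML) (h2 : S_LRG) {κ δ V : ℝ} {L : ℕ} (P : PC κ δ V (L + 1))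
    {n : Fin (L + 1) → ℕ} (hn : ∀ i, 2 ≤ n i) (hRF : RF V n) {a : Fin L → ℝ}
    (ha : ∀ i, (n i.castSucc : ℝ) ^ (1 + κ) ≤ a i ∧ a i ≤ (n i.castSucc : ℝ) ^ (1 + κ + δ))
    {A B : ℝ} (hA : A = (n (Fin.last L) : ℝ) ^ (1 + κ)) (hB : B = (n (Fin.last L) : ℝ) ^ (1 + κ + δ))
    (x : (Fin (L + 1) → ℕ) × (Fin L → ℕ)) :
    volume (Bd A B a x) ≤ ENNReal.ofReal (4 * A * V ^ (-(1 + κ / 2))) *
      (ENNReal.ofReal ((pr (fun i => (n i : ℝ)) x.1) ^ (-(κ / 8))) *
        ENNReal.ofReal ((pr (fun i : Fin L => (n i.castSucc : ℝ)) x.2) ^ (-(κ / 8)))) := by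
  rcases (Bd A B a x).eq_empty_or_nonempty with h | ⟨c, hcI, hK, hc⟩
  · rw [h, measure_empty]
    exact zero_le
  · have hk := P.k0
    have hd := d0 P
    have hV0 := V0 P
    have hp : (2 : ℝ) ≤ n (Fin.last L) := by exact_mod_cast hn _
    have hA1 : 1 ≤ A := by
      rw [hA]
      exact Real.one_le_rpow (by linarith) (by linarith)
    have hAB : A ≤ B := by
      rw [hA, hB]
      exact Real.rpow_le_rpow_of_exponent_le (by linarith) (by linarith)
    have hb := bound P h1 h2 hn hRF ha (c := c) (by rw [← hA]; exact hcI.1)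
      (by rw [← hB]; exact hcI.2) hK hc
    have hb' : ∀ i : Fin (L + 1),
        (n i : ℝ) ^ (1 + κ) ≤ (Fin.snoc (α := fun _ => ℝ) a A : Fin (L + 1) → ℝ) i ∧
        (Fin.snoc (α := fun _ => ℝ) a A : Fin (L + 1) → ℝ) i ≤ (n i : ℝ) ^ (1 + κ + δ) := by
      intro i
      refine Fin.lastCases ?_ (fun i => ?_) i
      · rw [Fin.snoc_last]
        exact ⟨hA.ge, by rw [← hB]; exact hAB⟩
      · rw [Fin.snoc_castSucc]
        exact ha i
    obtain ⟨g1, -⟩ := pr_bound hb' x.1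
    rw [pr_snoc, mul_comm] at g1
    have hN1 : (0 : ℝ) < ((pr n x.1 : ℕ) : ℝ) := by exact_mod_cast pr_pos hn x.1
    have hu : 0 < pr a (fun i => x.1 i.castSucc) := by
      refine Finset.prod_pos fun i _ => pow_pos (lt_of_lt_of_le ?_ (ha i).1) _
      have : (0 : ℝ) < (n i.castSucc : ℝ) := by
        have := hn i.castSucc
        exact_mod_cast (by omega : 0 < n i.castSucc)
      positivity
    have e1 := hV (x.1 (Fin.last L)) (pr a fun i => x.1 i.castSucc) (pr a x.2) A B hK hu hA1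
    have e2 : Bd A B a x ⊆ {c : ℝ | c ∈ Set.Icc A B ∧
        |c ^ x.1 (Fin.last L) * (pr a fun i => x.1 i.castSucc) - pr a x.2| < 1} :=
      fun c hc => ⟨hc.1, hc.2.2⟩
    refine (measure_mono e2).trans (e1.trans ?_)
    rw [pr_cast, pr_cast (fun i : Fin L => n i.castSucc), ← ENNReal.ofReal_mul (by positivity),
      ← ENNReal.ofReal_mul (by positivity)]
    apply ENNReal.ofReal_le_ofReal
    have hpos : 0 < ((pr n x.1 : ℕ) : ℝ) ^ (1 + κ) := Real.rpow_pos_of_pos hN1 _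
    calc 2 * A / (A ^ x.1 (Fin.last L) * pr a fun i => x.1 i.castSucc) ≤
        2 * A / ((pr n x.1 : ℕ) : ℝ) ^ (1 + κ) :=
          div_le_div_of_nonneg_left (by linarith) hpos g1
      _ = 2 * A * ((pr n x.1 : ℕ) : ℝ) ^ (-(1 + κ)) := by
          rw [Real.rpow_neg hN1.le]
          rfl
      _ ≤ 2 * A * (2 * V ^ (-(1 + κ / 2)) * (((pr n x.1 : ℕ) : ℝ) ^ (-(κ / 8)) *
            ((pr (fun i => n i.castSucc) x.2 : ℕ) : ℝ) ^ (-(κ / 8)))) :=
          mul_le_mul_of_nonneg_left hb (by linarith)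
      _ = _ := by ring

end STEP

open STEP in
theorem t_STEP (hV : S_VOL) (hS : S_SUM) (h1 : S_SML) (h2 : S_LRG) : S_STEP := by
  intro κ δ V L P n hn hRF a ha hSep
  have hk := P.k0
  have hd := d0 P
  have hV0 := V0 P
  have hp : (2 : ℝ) ≤ n (Fin.last L) := by exact_mod_cast hn _
  set A := (n (Fin.last L) : ℝ) ^ (1 + κ) with hA
  set B := (n (Fin.last L) : ℝ) ^ (1 + κ + δ) with hB
  have hA1 : 1 ≤ A := Real.one_le_rpow (by linarith) (by linarith)
  have hBA : A * (δ / 2) ≤ B - A := by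
    have e : B = A * (n (Fin.last L) : ℝ) ^ δ := Real.rpow_add (by linarith) _ _
    have e2 : 1 + δ / 2 ≤ (n (Fin.last L) : ℝ) ^ δ := by
      rw [Real.rpow_def_of_pos (by linarith)]
      have h3 := Real.add_one_le_exp (Real.log (n (Fin.last L)) * δ)
      have h4 : 1 / 2 ≤ Real.log (n (Fin.last L)) :=
        (by linarith [Real.log_two_gt_d9] : 1 / 2 ≤ Real.log 2).trans
          (Real.log_le_log two_pos hp)
      nlinarith
    rw [e]
    nlinarith
  have hC0 : 0 ≤ 4 * A * V ^ (-(1 + κ / 2)) := by positivity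
  -- the sum of the measures
  have hsum : ∑' x, volume (Bd A B a x) < volume (Set.Icc A B) := by
    have s1 := hS (L + 1) (κ / 8) (by linarith) (fun i => (n i : ℝ)) fun i => by exact_mod_cast hn i
    have s2 := hS L (κ / 8) (by linarith) (fun i => (n i.castSucc : ℝ))
      fun i => by exact_mod_cast hn _
    have hW1 := W_one P (L + 1)
    have hW2 := W_one P L
    have t1 : ∑' x, volume (Bd A B a x) ≤ ENNReal.ofReal (4 * A * V ^ (-(1 + κ / 2))) *
        (ENNReal.ofReal (W (κ / 8) (L + 1)) * ENNReal.ofReal (W (κ / 8) L)) := by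
      calc ∑' x, volume (Bd A B a x) ≤ ∑' x : (Fin (L + 1) → ℕ) × (Fin L → ℕ),
            ENNReal.ofReal (4 * A * V ^ (-(1 + κ / 2))) *
            (ENNReal.ofReal ((pr (fun i => (n i : ℝ)) x.1) ^ (-(κ / 8))) *
              ENNReal.ofReal ((pr (fun i : Fin L => (n i.castSucc : ℝ)) x.2) ^ (-(κ / 8)))) :=
            ENNReal.tsum_le_tsum fun x => vol_bd hV h1 h2 P hn hRF ha hA hB x
        _ = ENNReal.ofReal (4 * A * V ^ (-(1 + κ / 2))) *
            ((∑' K, ENNReal.ofReal ((pr (fun i => (n i : ℝ)) K) ^ (-(κ / 8)))) *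
              ∑' k, ENNReal.ofReal ((pr (fun i : Fin L => (n i.castSucc : ℝ)) k) ^ (-(κ / 8)))) := by
            rw [ENNReal.tsum_mul_left, ENNReal.tsum_prod (f := fun K k =>
              ENNReal.ofReal ((pr (fun i => (n i : ℝ)) K) ^ (-(κ / 8))) *
              ENNReal.ofReal ((pr (fun i : Fin L => (n i.castSucc : ℝ)) k) ^ (-(κ / 8))))]
            simp only [ENNReal.tsum_mul_left, ENNReal.tsum_mul_right]
        _ ≤ _ := by gcongr
    refine t1.trans_lt ?_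
    rw [← ENNReal.ofReal_mul (by linarith), ← ENNReal.ofReal_mul hC0, Real.volume_Icc]
    refine ENNReal.ofReal_lt_ofReal_iff'.2 ⟨?_, ?_⟩
    · refine lt_of_lt_of_le ?_ hBA
      have e3 : V ^ (-(1 + κ / 2)) = δ * V ^ (-(κ / 4)) := by
        rw [P.dV, ← Real.rpow_add hV0]
        congr 1
        ring
      have h3 := P.h3
      have hVp : 0 < V ^ (-(κ / 4)) := Real.rpow_pos_of_pos hV0 _
      have e4 : W (κ / 8) (L + 1) * W (κ / 8) L ≤ W (κ / 8) (L + 1) ^ 2 := by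
        rw [sq]
        exact mul_le_mul_of_nonneg_left hW2.2 (by linarith)
      calc 4 * A * V ^ (-(1 + κ / 2)) * (W (κ / 8) (L + 1) * W (κ / 8) L) ≤
          4 * A * V ^ (-(1 + κ / 2)) * W (κ / 8) (L + 1) ^ 2 := mul_le_mul_of_nonneg_left e4 hC0
        _ = (A * (δ / 2)) * (8 * W (κ / 8) (L + 1) ^ 2 * V ^ (-(κ / 4))) := by
            rw [e3]
            ring
        _ < (A * (δ / 2)) * 1 := mul_lt_mul_of_pos_left h3 (by positivity)
        _ = A * (δ / 2) := mul_one _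
    · exact lt_of_lt_of_le (by positivity) hBA
  have hex : ∃ c ∈ Set.Icc A B, ∀ x, c ∉ Bd A B a x := by
    by_contra hcon
    push Not at hcon
    have hsub : Set.Icc A B ⊆ ⋃ x, Bd A B a x := fun c hc => Set.mem_iUnion.2 (hcon c hc)
    exact absurd ((measure_mono hsub).trans (measure_iUnion_le _)) (not_le.2 hsum)
  obtain ⟨c, hc, hcB⟩ := hex
  refine ⟨c, hc.1, hc.2, sep_snoc hSep (hA1.trans hc.1) fun K k' hK => ?_⟩
  by_contra hlt
  rw [not_le] at hlt
  exact hcB (K, k') ⟨hc, hK, hlt⟩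

end Pool.Agent.NH50.UX
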