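import Pool.Agent.NH50.UX.Stm

/-! # Project UX, part SUM: the sum over all exponents -/

set_option autoImplicit false

open MeasureTheory Filter
open scoped ENNReal

namespace Pool.Agent.NH50.UX

namespace SUM

theorem tsum_prod_pow (x : ℝ≥0∞) (L : ℕ) :
    ∑' K : Fin L → ℕ, ∏ i, x ^ K i = ((1 - x)⁻¹) ^ L := by
  induction L with
  | zero =>
    rw [pow_zero]
    have h : ∀ K : Fin 0 → ℕ, ∏ i, x ^ K i = 1 := fun K => by simp
    rw [tsum_congr h, tsum_fintype]
    simp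
  | succ L ih =>
    rw [← (Fin.consEquiv (fun _ : Fin (L + 1) => ℕ)).tsum_eq, ENNReal.tsum_prod', pow_succ']
    have h : ∀ k : ℕ, ∑' K : Fin L → ℕ,
        ∏ i, x ^ ((Fin.consEquiv (fun _ : Fin (L + 1) => ℕ)) (k, K) i) =
        x ^ k * ((1 - x)⁻¹) ^ L := by
      intro k
      rw [← ih, ← ENNReal.tsum_mul_left]
      refine tsum_congr fun K => ?_
      rw [Fin.prod_univ_succ]
      rfl
    rw [tsum_congr h, ENNReal.tsum_mul_right, ENNReal.tsum_geometric]

theorem term_le {L : ℕ} {s : ℝ} (hs : 0 < s) (a : Fin L → ℝ) (ha : ∀ i, 2 ≤ a i) (K : Fin L → ℕ) :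
    (pr a K) ^ (-s) ≤ ∏ i, ((2 : ℝ) ^ (-s)) ^ K i := by
  unfold pr
  rw [← Real.finsetProd_rpow _ _ (fun i _ => pow_nonneg (by linarith [ha i]) _)]
  refine Finset.prod_le_prod (fun i _ => by have := ha i; positivity) fun i _ => ?_
  have h0 : 0 ≤ a i := by linarith [ha i]
  rw [← Real.rpow_natCast, ← Real.rpow_mul h0, mul_comm, Real.rpow_mul h0, Real.rpow_natCast]
  exact pow_le_pow_left₀ (Real.rpow_nonneg h0 _)
    (Real.rpow_le_rpow_of_nonpos (by norm_num) (ha i) (by linarith)) _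

end SUM

open SUM in
theorem t_SUM : S_SUM := by
  intro L s hs a ha
  have hw0 : (0 : ℝ) < 2 ^ (-s) := by positivity
  have hw1 : (2 : ℝ) ^ (-s) < 1 := Real.rpow_lt_one_of_one_lt_of_neg (by norm_num) (by linarith)
  have h1 : ∑' K : Fin L → ℕ, ENNReal.ofReal ((pr a K) ^ (-s)) ≤
      ∑' K : Fin L → ℕ, ∏ i, ENNReal.ofReal ((2 : ℝ) ^ (-s)) ^ K i := by
    refine ENNReal.tsum_le_tsum fun K => ?_
    refine (ENNReal.ofReal_le_ofReal (term_le hs a ha K)).trans (le_of_eq ?_)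
    rw [ENNReal.ofReal_prod_of_nonneg fun i _ => pow_nonneg hw0.le _]
    exact Finset.prod_congr rfl fun i _ => ENNReal.ofReal_pow hw0.le _
  refine h1.trans (le_of_eq ?_)
  rw [tsum_prod_pow, W, ENNReal.ofReal_pow (inv_nonneg.2 (by linarith)),
    ENNReal.ofReal_inv_of_pos (by linarith), ENNReal.ofReal_sub _ hw0.le, ENNReal.ofReal_one]

end Pool.Agent.NH50.UX
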