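import Mathlib
import Pool.Prelude.Def_F_f983ba18

/-!
# Project UX (helper50), MP_e2def7_nt (Erdos 951): for every large `x` there is a 1-separated sequence
with at least `π(x) + x ^ (1/4)` terms `≤ x`

Idea: (1) there are sets of `π(y) + E` integers in `[2, y]`, `E` about `y ^ (1/4)`, such that all their
multiplicative relations are extremely long (chains `q_j q_(j+1) ^ 2` of small primes: a relation has
an exponent at least `2 ^ (m - 2)`); (2) replace each integer `n` by `n ^ θ`, `θ` in a tiny interval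
`[1 + κ, 1 + κ + δ]`: the products at most `V` stay separated since they are near different
integers (the power `1 + κ` makes the gaps a bit larger than `1`), and for the larger products a measure
argument gives suitable exponents `θ`; (3) every finite 1-separated family extends to an infinite
1-separated sequence (measure argument).
-/

set_option autoImplicit false

namespace Pool.Agent.NH50.UX

open N44b300f8 MeasureTheory Filter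
open scoped ENNReal Nat.Prime

/-- the product with the exponents `k` -/
def pr {ι : Type} [Fintype ι] {R : Type} [CommMonoid R] (a : ι → R) (k : ι → ℕ) : R :=
  ∏ i, a i ^ k i

/-- a finite family is 1-separated -/
def Sep {ι : Type} [Fintype ι] (a : ι → ℝ) : Prop :=
  ∀ k l : ι → ℕ, k ≠ l → 1 ≤ |pr a k - pr a l|

/-- no multiplicative relations between products at most `V` -/
def RF {ι : Type} [Fintype ι] (V : ℝ) (n : ι → ℕ) : Prop :=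
  ∀ k l : ι → ℕ, k ≠ l → ((pr n k : ℕ) : ℝ) ≤ V → pr n k ≠ pr n l

/-- the constant of the sums over all exponents -/
noncomputable def W (s : ℝ) (L : ℕ) : ℝ := ((1 - (2 : ℝ) ^ (-s))⁻¹) ^ L

/-- the conditions on the parameters -/
structure PC (κ δ V : ℝ) (L : ℕ) : Prop where
  k0 : 0 < κ
  k1 : κ ≤ 1
  V1 : 4 ≤ V
  dV : δ = V ^ (-(1 + κ / 4))
  h1 : 2 * Real.log V * V ^ (-(κ / 4)) ≤ κ
  h3 : 8 * W (κ / 8) L ^ 2 * V ^ (-(κ / 4)) < 1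

/-- UX-VOL -/
def S_VOL : Prop := ∀ (r : ℕ) (u v A B : ℝ), 1 ≤ r → 0 < u → 1 ≤ A →
  volume {c : ℝ | c ∈ Set.Icc A B ∧ |c ^ r * u - v| < 1} ≤ ENNReal.ofReal (2 * A / (A ^ r * u))

/-- UX-SUM -/
def S_SUM : Prop := ∀ (L : ℕ) (s : ℝ), 0 < s → ∀ a : Fin L → ℝ, (∀ i, 2 ≤ a i) →
  ∑' K : Fin L → ℕ, ENNReal.ofReal ((pr a K) ^ (-s)) ≤ ENNReal.ofReal (W s L)

/-- UX-SML -/
def S_SML : Prop := ∀ (κ δ V : ℝ) (L : ℕ), PC κ δ V L → ∀ N M : ℕ, 1 ≤ N → N < M → (N : ℝ) ≤ V →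
  (N : ℝ) ^ (1 + κ + δ) + 1 ≤ (M : ℝ) ^ (1 + κ)

/-- UX-LRG -/
def S_LRG : Prop := ∀ (κ δ V : ℝ) (L : ℕ), PC κ δ V L → ∀ N M : ℝ, 1 ≤ N → 1 ≤ M → V ≤ N →
  M ^ (1 + κ) ≤ N ^ (1 + κ + δ) + 1 →
  N ^ (-(1 + κ)) ≤ 2 * V ^ (-(1 + κ / 2)) * (N ^ (-(κ / 8)) * M ^ (-(κ / 8)))

/-- UX-STEP -/
def S_STEP : Prop := ∀ (κ δ V : ℝ) (L : ℕ), PC κ δ V (L + 1) → ∀ n : Fin (L + 1) → ℕ,
  (∀ i, 2 ≤ n i) → RF V n → ∀ a : Fin L → ℝ,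
  (∀ i, (n i.castSucc : ℝ) ^ (1 + κ) ≤ a i ∧ a i ≤ (n i.castSucc : ℝ) ^ (1 + κ + δ)) → Sep a →
  ∃ c : ℝ, (n (Fin.last L) : ℝ) ^ (1 + κ) ≤ c ∧ c ≤ (n (Fin.last L) : ℝ) ^ (1 + κ + δ) ∧
    Sep (Fin.snoc (α := fun _ => ℝ) a c)

/-- UX-FIN -/
def S_FIN : Prop := ∀ (κ δ V : ℝ) (L : ℕ), PC κ δ V L → ∀ n : Fin L → ℕ, (∀ i, 2 ≤ n i) → RF V n →
  ∃ a : Fin L → ℝ,
    (∀ i, (n i : ℝ) ^ (1 + κ) ≤ a i ∧ a i ≤ (n i : ℝ) ^ (1 + κ + δ)) ∧ Sep a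

/-- UX-EXT -/
def S_EXT : Prop := ∀ (L : ℕ) (a : Fin L → ℝ), (∀ i, 2 ≤ a i) → Sep a → ∀ Y : ℝ,
  ∃ c : ℝ, Y ≤ c ∧ Sep (Fin.snoc (α := fun _ => ℝ) a c)

/-- UX-INF -/
def S_INF : Prop := ∀ (L : ℕ) (a : Fin L → ℝ), (∀ i, 2 ≤ a i) → StrictMono a → Sep a →
  ∃ b : ℕ → ℝ, 1 < b 0 ∧ StrictMono b ∧ Erdos951Prop b ∧ ∀ i : Fin L, b i = a i

/-- UX-REL: sets of integers without short multiplicative relations -/
def S_REL : Prop := ∀ (y E m : ℕ) (q : Fin E → ℕ → ℕ), 2 ≤ m → (∀ e, ∀ j < m, (q e j).Prime) →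
  (∀ e j e' j', j < m → j' < m → q e j = q e' j' → e = e' ∧ j = j') →
  (∀ e, ∀ j < m, q e j ^ 3 ≤ y) →
  ∃ I : Finset ℕ, (∀ n ∈ I, 2 ≤ n ∧ n ≤ y) ∧ I.card = π y + E ∧
    ∀ V : ℝ, V < 2 ^ (2 ^ (m - 2)) → RF V (fun i : I => (i : ℕ))

/-- the excess -/
noncomputable def EE (y : ℕ) : ℕ := ⌈((y : ℝ) + 2) ^ (1 / 4 : ℝ)⌉₊ + 1

/-- the length of the chains -/
def mm (y : ℕ) : ℕ := 6 * Nat.log 2 y + 10

/-- UX-CH: enough small primes -/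
def S_CH : Prop := ∃ y₀ : ℕ, ∀ y : ℕ, y₀ ≤ y → ∃ q : Fin (EE y) → ℕ → ℕ,
  (∀ e, ∀ j < mm y, (q e j).Prime) ∧
  (∀ e j e' j', j < mm y → j' < mm y → q e j = q e' j' → e = e' ∧ j = j') ∧
  ∀ e, ∀ j < mm y, q e j ^ 3 ≤ y

/-- `κ` -/
noncomputable def kk (y : ℕ) : ℝ := 1 / (4 * (y : ℝ) ^ 2)

/-- `V` -/
noncomputable def vv (y : ℕ) : ℝ := Real.exp ((y : ℝ) ^ 6)

/-- `δ` -/
noncomputable def dd (y : ℕ) : ℝ := vv y ^ (-(1 + kk y / 4))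

/-- UX-PAR: the parameters -/
def S_PAR : Prop := ∃ y₀ : ℕ, ∀ y : ℕ, y₀ ≤ y → (∀ L : ℕ, L ≤ 2 * y → PC (kk y) (dd y) (vv y) L) ∧
  vv y < 2 ^ (2 ^ (mm y - 2)) ∧ (y : ℝ) ^ (1 + kk y + dd y) ≤ y + 1 ∧ EE y ≤ y ∧ π y ≤ y

/-- the result -/
def S_TOP : Prop := ∃ x₀ : ℝ, ∀ x : ℝ, x₀ ≤ x → ∃ a : ℕ → ℝ, 1 < a 0 ∧ StrictMono a ∧ Erdos951Prop a ∧
  (π ⌊x⌋₊ : ℝ) + x ^ (1 / 4 : ℝ) ≤ ({i : ℕ | a i ≤ x}.ncard : ℝ)

end Pool.Agent.NH50.UX
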