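import Pool.Agent.NH50.UX.Stm
import Pool.Agent.NH50.E951.A

/-!
# Project UX: final assembly
-/

set_option autoImplicit false

namespace Pool.Agent.NH50.UX

open N44b300f8 MeasureTheory Filter
open scoped ENNReal Nat.Prime

namespace TOP

/-- relations of a set are relations of its increasing enumeration -/
theorem RF_emb {I : Finset ℕ} {L : ℕ} (hL : I.card = L) {V : ℝ} (h : RF V (fun i : I => (i : ℕ))) :
    RF V (fun i : Fin L => I.orderEmbOfFin hL i) := by
  intro k l hkl hV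
  set e := (I.orderIsoOfFin hL).toEquiv with he
  have key : ∀ k : Fin L → ℕ, pr (fun i : I => (i : ℕ)) (k ∘ e.symm) =
      pr (fun i : Fin L => I.orderEmbOfFin hL i) k := by
    intro k
    unfold pr
    rw [← Equiv.prod_comp e]
    refine Finset.prod_congr rfl fun i _ => ?_
    rw [Function.comp_apply, Equiv.symm_apply_apply]
    rfl
  have h1 := h (k ∘ e.symm) (l ∘ e.symm) (fun h' => hkl (by
    funext i
    have := congrFun h' (e i)
    simpa using this)) (by rw [key]; exact hV)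
  rw [key, key] at h1
  exact h1

end TOP

open TOP in
/-- the result -/
theorem t_TOP (hF : S_FIN) (h1 : S_SML) (hI : S_INF) (hR : S_REL) (hC : S_CH) (hP : S_PAR) :
    S_TOP := by
  obtain ⟨y1, hy1⟩ := hC
  obtain ⟨y2, hy2⟩ := hP
  refine ⟨((max y1 y2 : ℕ) : ℝ) + 4, fun x hx => ?_⟩
  have hx0 : 0 ≤ x := by
    have : (0 : ℝ) ≤ ((max y1 y2 : ℕ) : ℝ) := Nat.cast_nonneg _
    linarith
  obtain ⟨y, hy⟩ : ∃ y : ℕ, ⌊x⌋₊ = y + 1 := by
    have h2 : 1 ≤ ⌊x⌋₊ := by
      rw [Nat.one_le_floor_iff]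
      have : (0 : ℝ) ≤ ((max y1 y2 : ℕ) : ℝ) := Nat.cast_nonneg _
      linarith
    exact ⟨⌊x⌋₊ - 1, by omega⟩
  have hyx : (y : ℝ) + 1 ≤ x := by
    have h2 := Nat.floor_le hx0
    rw [hy] at h2
    push_cast at h2
    exact h2
  have hxy : x < (y : ℝ) + 2 := by
    have h2 := Nat.lt_floor_add_one x
    rw [hy] at h2
    push_cast at h2
    linarith
  have hyb : max y1 y2 + 2 ≤ y := by
    have h2 : ((max y1 y2 : ℕ) : ℝ) + 2 ≤ y := by linarith
    exact_mod_cast h2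
  obtain ⟨q, q1, q2, q3⟩ := hy1 y (by omega)
  obtain ⟨p1, p2, p3, p4, p5⟩ := hy2 y (by omega)
  obtain ⟨I, i1, i2, i3⟩ := hR y (EE y) (mm y) q (by unfold mm; omega) q1 q2 q3
  have hRF := RF_emb rfl (i3 (vv y) p2)
  have hL : I.card ≤ 2 * y := by
    rw [i2]
    have := p5
    omega
  have hPC := p1 I.card hL
  have hn : ∀ i : Fin I.card, 2 ≤ I.orderEmbOfFin rfl i ∧ I.orderEmbOfFin rfl i ≤ y :=
    fun i => i1 _ (I.orderEmbOfFin_mem rfl i)
  obtain ⟨a, a1, a2⟩ := hF (kk y) (dd y) (vv y) I.card hPC (fun i => I.orderEmbOfFin rfl i)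
    (fun i => (hn i).1) hRF
  have hk0 := hPC.k0
  have hd0 : 0 < dd y := by
    unfold dd
    have : 0 < vv y := lt_of_lt_of_le (by norm_num) hPC.V1
    positivity
  -- the terms are at least `2`
  have a3 : ∀ i, 2 ≤ a i := by
    intro i
    refine le_trans ?_ (a1 i).1
    have h2 : (2 : ℝ) ≤ (I.orderEmbOfFin rfl i : ℕ) := by exact_mod_cast (hn i).1
    calc (2 : ℝ) ≤ (I.orderEmbOfFin rfl i : ℕ) := h2
      _ = ((I.orderEmbOfFin rfl i : ℕ) : ℝ) ^ (1 : ℝ) := (Real.rpow_one _).symm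
      _ ≤ _ := Real.rpow_le_rpow_of_exponent_le (by linarith) (by linarith)
  -- they are increasing
  have hyV : (y : ℝ) ≤ vv y := by
    unfold vv
    have h2 := Real.add_one_le_exp ((y : ℝ) ^ 6)
    have h3 : (1 : ℝ) ≤ y := by
      have : 1 ≤ y := by omega
      exact_mod_cast this
    have h4 : (y : ℝ) ≤ (y : ℝ) ^ 6 := le_self_pow₀ h3 (by norm_num)
    linarith
  have a4 : StrictMono a := by
    intro i j hij
    have h2 : I.orderEmbOfFin rfl i < I.orderEmbOfFin rfl j := (I.orderEmbOfFin rfl).strictMono hij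
    have h3 := h1 _ _ _ _ hPC _ _ (by have := (hn i).1; omega) h2 (by
      have : ((I.orderEmbOfFin rfl i : ℕ) : ℝ) ≤ y := by exact_mod_cast (hn i).2
      linarith)
    have h4 := (a1 i).2
    have h5 := (a1 j).1
    linarith
  -- they are at most `x`
  have a5 : ∀ i, a i ≤ x := by
    intro i
    refine (a1 i).2.trans (le_trans ?_ (p3.trans hyx))
    refine Real.rpow_le_rpow (Nat.cast_nonneg _) ?_ (by linarith)
    exact_mod_cast (hn i).2
  obtain ⟨b, b1, b2, b3, b4⟩ := hI I.card a a3 a4 a2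
  refine ⟨b, b1, b2, b3, ?_⟩
  -- the count
  have hfin : {i : ℕ | b i ≤ x}.Finite := by
    obtain ⟨m, hm⟩ := exists_nat_gt x
    refine (Set.finite_lt_nat m).subset fun i hi => ?_
    have h2 := Pool.Agent.NH50.E951.ge_two b1 b2 b3 i
    have h3 : b i ≤ x := hi
    have h4 : (i : ℝ) < m := by linarith
    exact_mod_cast h4
  have hsub : ((Finset.range I.card : Finset ℕ) : Set ℕ) ⊆ {i : ℕ | b i ≤ x} := by
    intro i hi
    have hi' : i < I.card := by simpa using hi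
    show b i ≤ x
    have h2 := b4 ⟨i, hi'⟩
    have h3 : b i = a ⟨i, hi'⟩ := h2
    rw [h3]
    exact a5 _
  have hcard : I.card ≤ {i : ℕ | b i ≤ x}.ncard := by
    have h2 := Set.ncard_le_ncard hsub hfin
    rw [Set.ncard_coe_finset, Finset.card_range] at h2
    exact h2
  have hpi : π ⌊x⌋₊ ≤ π y + 1 := by
    rw [hy]
    unfold Nat.primeCounting Nat.primeCounting'
    rw [Nat.count_succ Nat.Prime (y + 1)]
    split_ifs <;> omega
  have hE : x ^ (1 / 4 : ℝ) + 1 ≤ (EE y : ℝ) := by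
    unfold EE
    push_cast
    have h2 := Nat.le_ceil (((y : ℝ) + 2) ^ (1 / 4 : ℝ))
    have h3 : x ^ (1 / 4 : ℝ) ≤ ((y : ℝ) + 2) ^ (1 / 4 : ℝ) :=
      Real.rpow_le_rpow hx0 hxy.le (by norm_num)
    linarith
  have h2 : (π ⌊x⌋₊ : ℝ) ≤ (π y : ℝ) + 1 := by exact_mod_cast hpi
  have h3 : ((π y : ℝ) + (EE y : ℝ)) ≤ ({i : ℕ | b i ≤ x}.ncard : ℝ) := by
    rw [i2] at hcard
    exact_mod_cast hcard
  linarith

end Pool.Agent.NH50.UX
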