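import Pool.Agent.NH50.UX.TOP
import Pool.Agent.NH50.UX.REL2
import Pool.Agent.NH50.UX.CH2

/-!
# Project UX: final assembly, second version: the bound fails on a long interval
-/

set_option autoImplicit false

namespace Pool.Agent.NH50.UX

open N44b300f8 MeasureTheory Filter
open scoped ENNReal Nat.Prime

open TOP in
/-- the result -/
theorem top2 (hF : S_FIN) (h1 : S_SML) (hI : S_INF) (hP : S_PAR) (α β : ℝ) (hα : 0 < α)
    (hβ : 0 < β) (hαβ : α + β < 1 / 3) :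
    ∃ X₀ : ℝ, ∀ X : ℝ, X₀ ≤ X → ∃ a : ℕ → ℝ, 1 < a 0 ∧ StrictMono a ∧ Erdos951Prop a ∧
      ∀ x : ℝ, X ≤ x → x ≤ Real.exp (X ^ α) →
        (π ⌊x⌋₊ : ℝ) + X ^ β ≤ ({i : ℕ | a i ≤ x}.ncard : ℝ) := by
  obtain ⟨y1, hy1⟩ := ch2 α β hα hβ hαβ
  obtain ⟨y2, hy2⟩ := hP
  -- eventually `X ≤ exp (X ^ α)`
  obtain ⟨X3, hX3⟩ : ∃ X3 : ℝ, ∀ X : ℝ, X3 ≤ X → X ≤ Real.exp (X ^ α) := by
    have e1 : ∀ᶠ x : ℝ in atTop, ‖Real.log x‖ ≤ (1 : ℝ) * ‖x ^ α‖ :=
      (isLittleO_log_rpow_atTop hα).bound (by norm_num)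
    have e2 : ∀ᶠ x : ℝ in atTop, x ≤ Real.exp (x ^ α) := by
      filter_upwards [e1, eventually_ge_atTop 1] with x hx hx1
      rw [Real.norm_of_nonneg (Real.log_nonneg hx1),
        Real.norm_of_nonneg (Real.rpow_nonneg (by linarith) _), one_mul] at hx
      rwa [← Real.log_le_iff_le_exp (by linarith)]
    exact eventually_atTop.1 e2
  refine ⟨max (((max y1 y2 : ℕ) : ℝ) + 4) X3, fun X hX => ?_⟩
  have hX1 : ((max y1 y2 : ℕ) : ℝ) + 4 ≤ X := (le_max_left _ _).trans hX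
  have hX2 : X ≤ Real.exp (X ^ α) := hX3 X ((le_max_right _ _).trans hX)
  have hX4 : 4 ≤ X := by
    have : (0 : ℝ) ≤ ((max y1 y2 : ℕ) : ℝ) := Nat.cast_nonneg _
    linarith
  have hX0 : 0 ≤ X := by linarith
  obtain ⟨y, hy⟩ : ∃ y : ℕ, ⌊X⌋₊ = y + 1 := by
    have h2 : 1 ≤ ⌊X⌋₊ := by
      rw [Nat.one_le_floor_iff]
      linarith
    exact ⟨⌊X⌋₊ - 1, by omega⟩
  have hyX : (y : ℝ) + 1 ≤ X := by
    have h2 := Nat.floor_le hX0
    rw [hy] at h2
    push_cast at h2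
    exact h2
  have hXy : X < (y : ℝ) + 2 := by
    have h2 := Nat.lt_floor_add_one X
    rw [hy] at h2
    push_cast at h2
    linarith
  have hyb : max y1 y2 + 2 ≤ y := by
    have h2 : ((max y1 y2 : ℕ) : ℝ) + 2 ≤ y := by linarith
    exact_mod_cast h2
  obtain ⟨Y, hY⟩ : ∃ Y : ℕ, Y = ⌊Real.exp (X ^ α)⌋₊ := ⟨_, rfl⟩
  have hyY : y ≤ Y := by
    rw [hY]
    refine Nat.le_floor ?_
    linarith
  have hYe : (Y : ℝ) ≤ Real.exp (((y : ℝ) + 2) ^ α) := by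
    have h2 : (Y : ℝ) ≤ Real.exp (X ^ α) := by
      rw [hY]
      exact Nat.floor_le (Real.exp_pos _).le
    refine h2.trans (Real.exp_le_exp.2 ?_)
    exact Real.rpow_le_rpow hX0 hXy.le hα.le
  obtain ⟨q0, q, q1, q2, q3⟩ := hy1 y (by omega) Y (by omega) hYe
  obtain ⟨p1, p2, p3, p4, p5⟩ := hy2 Y (by omega)
  obtain ⟨I, i1, i2, i3⟩ := rel2 y Y (E2 β y) (mm Y) hyY q (by unfold mm; omega) q1 q2 q3
  have hRF := RF_emb rfl (i3 (vv Y) p2)
  have hIc : I.card = π Y + E2 β y := by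
    rw [← i2 Y hyY le_rfl, Finset.filter_true_of_mem]
    exact fun n hn => (i1 n hn).2
  have hL : I.card ≤ 2 * Y := by
    rw [hIc]
    omega
  have hPC := p1 I.card hL
  have hn : ∀ i : Fin I.card, 2 ≤ I.orderEmbOfFin rfl i ∧ I.orderEmbOfFin rfl i ≤ Y :=
    fun i => i1 _ (I.orderEmbOfFin_mem rfl i)
  obtain ⟨a, a1, a2⟩ := hF (kk Y) (dd Y) (vv Y) I.card hPC (fun i => I.orderEmbOfFin rfl i)
    (fun i => (hn i).1) hRF
  have hk0 := hPC.k0
  have hd0 : 0 < dd Y := by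
    unfold dd
    have : 0 < vv Y := lt_of_lt_of_le (by norm_num) hPC.V1
    positivity
  have hY1 : (1 : ℝ) ≤ Y := by
    have : 1 ≤ Y := by omega
    exact_mod_cast this
  -- the terms are at least `2`
  have a3 : ∀ i, 2 ≤ a i := by
    intro i
    refine le_trans ?_ (a1 i).1
    have h2 : (2 : ℝ) ≤ (I.orderEmbOfFin rfl i : ℕ) := by exact_mod_cast (hn i).1
    calc (2 : ℝ) ≤ (I.orderEmbOfFin rfl i : ℕ) := h2
      _ = ((I.orderEmbOfFin rfl i : ℕ) : ℝ) ^ (1 : ℝ) := (Real.rpow_one _).symm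
      _ ≤ _ := Real.rpow_le_rpow_of_exponent_le (by linarith) (by linarith)
  -- they are increasing
  have hyV : (Y : ℝ) ≤ vv Y := by
    unfold vv
    have h2 := Real.add_one_le_exp ((Y : ℝ) ^ 6)
    have h4 : (Y : ℝ) ≤ (Y : ℝ) ^ 6 := le_self_pow₀ hY1 (by norm_num)
    linarith
  have a4 : StrictMono a := by
    intro i j hij
    have h2 : I.orderEmbOfFin rfl i < I.orderEmbOfFin rfl j := (I.orderEmbOfFin rfl).strictMono hij
    have h3 := h1 _ _ _ _ hPC _ _ (by have := (hn i).1; omega) h2 (by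
      have : ((I.orderEmbOfFin rfl i : ℕ) : ℝ) ≤ Y := by exact_mod_cast (hn i).2
      linarith)
    have h4 := (a1 i).2
    have h5 := (a1 j).1
    linarith
  -- the term of `n` is at most `n + 1`
  have hYp : (Y : ℝ) ^ (kk Y + dd Y) ≤ 1 + 1 / Y := by
    have h2 : (Y : ℝ) ^ (1 + kk Y + dd Y) = Y * (Y : ℝ) ^ (kk Y + dd Y) := by
      rw [add_assoc, Real.rpow_add (by linarith), Real.rpow_one]
    rw [h2] at p3
    have h3 : (1 : ℝ) + 1 / Y = (Y + 1) / Y := by field_simp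
    rw [h3, le_div_iff₀ (by linarith)]
    linarith
  have a5 : ∀ i, a i ≤ ((I.orderEmbOfFin rfl i : ℕ) : ℝ) + 1 := by
    intro i
    refine (a1 i).2.trans ?_
    obtain ⟨n, hnn⟩ : ∃ n : ℕ, n = I.orderEmbOfFin rfl i := ⟨_, rfl⟩
    rw [← hnn]
    have h2 : 2 ≤ n := by rw [hnn]; exact (hn i).1
    have h3 : n ≤ Y := by rw [hnn]; exact (hn i).2
    have h2' : (2 : ℝ) ≤ n := by exact_mod_cast h2
    have h3' : (n : ℝ) ≤ Y := by exact_mod_cast h3
    have h4 : (n : ℝ) ^ (kk Y + dd Y) ≤ 1 + 1 / n := by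
      calc (n : ℝ) ^ (kk Y + dd Y) ≤ (Y : ℝ) ^ (kk Y + dd Y) :=
            Real.rpow_le_rpow (by linarith) h3' (by linarith)
        _ ≤ 1 + 1 / Y := hYp
        _ ≤ 1 + 1 / n := by
            have := one_div_le_one_div_of_le (by linarith : (0 : ℝ) < n) h3'
            linarith
    calc (n : ℝ) ^ (1 + kk Y + dd Y) = n * (n : ℝ) ^ (kk Y + dd Y) := by
          rw [add_assoc, Real.rpow_add (by linarith), Real.rpow_one]
      _ ≤ n * (1 + 1 / n) := mul_le_mul_of_nonneg_left h4 (by linarith)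
      _ = n + 1 := by field_simp
  obtain ⟨b, b1, b2, b3, b4⟩ := hI I.card a a3 a4 a2
  refine ⟨b, b1, b2, b3, fun x hXx hxe => ?_⟩
  have hx0 : 0 ≤ x := by linarith
  -- the count
  have hfin : {i : ℕ | b i ≤ x}.Finite := by
    obtain ⟨m, hm⟩ := exists_nat_gt x
    refine (Set.finite_lt_nat m).subset fun i hi => ?_
    have h2 := Pool.Agent.NH50.E951.ge_two b1 b2 b3 i
    have h3 : b i ≤ x := hi
    have h4 : (i : ℝ) < m := by linarith
    exact_mod_cast h4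
  obtain ⟨z, hz⟩ : ∃ z : ℕ, ⌊x⌋₊ = z + 1 := by
    have h2 : 1 ≤ ⌊x⌋₊ := by
      rw [Nat.one_le_floor_iff]
      linarith
    exact ⟨⌊x⌋₊ - 1, by omega⟩
  have hzx : (z : ℝ) + 1 ≤ x := by
    have h2 := Nat.floor_le hx0
    rw [hz] at h2
    push_cast at h2
    exact h2
  have hyz : y ≤ z := by
    have h2 : ⌊X⌋₊ ≤ ⌊x⌋₊ := Nat.floor_mono hXx
    omega
  have hzY : z ≤ Y := by
    have h2 : ⌊x⌋₊ ≤ Y := by
      rw [hY]
      exact Nat.floor_mono hxe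
    omega
  obtain ⟨T, hT⟩ : ∃ T : Finset (Fin I.card), T = Finset.univ.filter
    (fun i => I.orderEmbOfFin rfl i ≤ z) := ⟨_, rfl⟩
  have hTc : T.card = π z + E2 β y := by
    rw [← i2 z hyz hzY]
    rw [← Finset.card_map (I.orderEmbOfFin rfl).toEmbedding]
    congr 1
    ext n
    rw [Finset.mem_map, Finset.mem_filter]
    constructor
    · rintro ⟨i, hi, rfl⟩
      rw [hT, Finset.mem_filter] at hi
      exact ⟨I.orderEmbOfFin_mem rfl i, hi.2⟩
    · rintro ⟨h2, h3⟩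
      obtain ⟨i, hi⟩ : n ∈ Set.range (I.orderEmbOfFin rfl) := by
        rw [Finset.range_orderEmbOfFin]
        exact h2
      refine ⟨i, ?_, hi⟩
      rw [hT, Finset.mem_filter]
      exact ⟨Finset.mem_univ _, by rw [hi]; exact h3⟩
  have hsub : ((T.map Fin.valEmbedding : Finset ℕ) : Set ℕ) ⊆ {i : ℕ | b i ≤ x} := by
    intro i hi
    rw [Finset.mem_coe, Finset.mem_map] at hi
    obtain ⟨j, hj, rfl⟩ := hi
    rw [hT, Finset.mem_filter] at hj
    show b (j : ℕ) ≤ x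
    rw [b4 j]
    refine (a5 j).trans (le_trans ?_ hzx)
    have h2 : ((I.orderEmbOfFin rfl j : ℕ) : ℝ) ≤ z := by exact_mod_cast hj.2
    linarith
  have hcard : T.card ≤ {i : ℕ | b i ≤ x}.ncard := by
    have h2 := Set.ncard_le_ncard hsub hfin
    rw [Set.ncard_coe_finset, Finset.card_map] at h2
    exact h2
  have hpi : π ⌊x⌋₊ ≤ π z + 1 := by
    rw [hz]
    unfold Nat.primeCounting Nat.primeCounting'
    rw [Nat.count_succ Nat.Prime (z + 1)]
    split_ifs <;> omega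
  have hE : X ^ β + 1 ≤ (E2 β y : ℝ) := by
    unfold E2
    push_cast
    have h2 := Nat.le_ceil (((y : ℝ) + 2) ^ β)
    have h3 : X ^ β ≤ ((y : ℝ) + 2) ^ β :=
      Real.rpow_le_rpow hX0 hXy.le hβ.le
    linarith
  have h2 : (π ⌊x⌋₊ : ℝ) ≤ (π z : ℝ) + 1 := by exact_mod_cast hpi
  have h3 : ((π z : ℝ) + (E2 β y : ℝ)) ≤ ({i : ℕ | b i ≤ x}.ncard : ℝ) := by
    rw [hTc] at hcard
    exact_mod_cast hcard
  linarith

end Pool.Agent.NH50.UX
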