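import Pool.Agent.NH50.UX.Stm

/-! Project UX, part VOL: the measure of a bad set -/

set_option autoImplicit false

namespace Pool.Agent.NH50.UX

open MeasureTheory

namespace VOL

theorem pow_sub {A c c' : ℝ} (hA : 1 ≤ A) (h1 : A ≤ c') (h2 : c' ≤ c) (k : ℕ) :
    A ^ k * (c - c') ≤ c ^ (k + 1) - c' ^ (k + 1) := by
  have hA0 : 0 ≤ A := by linarith
  have hc'0 : 0 ≤ c' := by linarith
  have hd : 0 ≤ c - c' := by linarith
  induction k with
  | zero => simp
  | succ k ih =>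
    have e1 : c ^ (k + 1 + 1) - c' ^ (k + 1 + 1) =
        c * (c ^ (k + 1) - c' ^ (k + 1)) + (c - c') * c' ^ (k + 1) := by ring
    have h3 : 0 ≤ (c - c') * c' ^ (k + 1) := by positivity
    have h4 : A * (A ^ k * (c - c')) ≤ c * (c ^ (k + 1) - c' ^ (k + 1)) :=
      mul_le_mul (h1.trans h2) ih (by positivity) (by linarith)
    rw [e1, pow_succ']
    linarith [show A * A ^ k * (c - c') = A * (A ^ k * (c - c')) by ring]

theorem dist_le {r : ℕ} {u v A : ℝ} (hr : 1 ≤ r) (hu : 0 < u) (hA : 1 ≤ A) {c c' : ℝ}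
    (h1 : A ≤ c') (h2 : c' ≤ c) (h3 : |c ^ r * u - v| < 1) (h4 : |c' ^ r * u - v| < 1) :
    c - c' ≤ 2 * A / (A ^ r * u) := by
  obtain ⟨k, rfl⟩ : ∃ k, r = k + 1 := ⟨r - 1, by omega⟩
  have hA0 : 0 < A := by linarith
  have h5 := pow_sub hA h1 h2 k
  rw [abs_lt] at h3 h4
  have h6 : (c ^ (k + 1) - c' ^ (k + 1)) * u ≤ 2 := by
    have : (c ^ (k + 1) - c' ^ (k + 1)) * u = c ^ (k + 1) * u - c' ^ (k + 1) * u := by ring
    rw [this]
    linarith [h3.2, h4.1]
  rw [le_div_iff₀ (by positivity)]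
  have h7 : A ^ k * (c - c') * u ≤ 2 := (mul_le_mul_of_nonneg_right h5 hu.le).trans h6
  calc (c - c') * (A ^ (k + 1) * u) = A * (A ^ k * (c - c') * u) := by ring
    _ ≤ A * 2 := mul_le_mul_of_nonneg_left h7 hA0.le
    _ = 2 * A := by ring

end VOL

theorem t_VOL : S_VOL := by
  intro r u v A B hr hu hA
  refine (Real.volume_le_diam _).trans ?_
  refine Metric.ediam_le ?_
  rintro c ⟨hc, hc2⟩ c' ⟨hc', hc2'⟩
  rw [edist_dist, Real.dist_eq]
  apply ENNReal.ofReal_le_ofReal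
  rcases le_total c' c with h | h
  · rw [abs_of_nonneg (by linarith)]
    exact VOL.dist_le hr hu hA hc'.1 h hc2 hc2'
  · rw [abs_sub_comm, abs_of_nonneg (by linarith)]
    exact VOL.dist_le hr hu hA hc.1 h hc2' hc2

end Pool.Agent.NH50.UX
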